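import Mathlib

/-!
# The radius of the Hurwitz graph of type B: definitions and statements of the steps
-/

set_option autoImplicit false

namespace Pool.Agent.K3h92.Hz

open Equiv

/-- `B_n`: the signed permutations of `{±1, ..., ±n}`, extended to `ℤ` by the identity. -/
def IsB (n : ℕ) (f : Perm ℤ) : Prop :=
  (∀ x, f (-x) = -f x) ∧ ∀ x : ℤ, (n : ℤ) < |x| → f x = x

/-- `[a]`: the reflection that exchanges `a` and `-a` -/
def df (a : ℤ) : Perm ℤ := swap a (-a)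

/-- `((a b))`: the reflection that exchanges `a` and `b`, and `-a` and `-b` -/
def nd (a b : ℤ) : Perm ℤ := swap a b * swap (-a) (-b)

/-- the simple reflections `s_0, s_1, s_2, ...` -/
def sg (i : ℕ) : Perm ℤ := if i = 0 then df 1 else nd (i : ℤ) ((i : ℤ) + 1)

/-- the reflections of `B_n`: the conjugates of the simple reflections -/
def Rfl (n : ℕ) : Set (Perm ℤ) := {t | ∃ g, IsB n g ∧ ∃ i, i < n ∧ t = g * sg i * g⁻¹}

/-- Coxeter elements: products of the simple reflections, each taken once, in some order -/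
def IsCox (n : ℕ) (c : Perm ℤ) : Prop :=
  ∃ l : List ℕ, l.Perm (List.range n) ∧ c = (l.map sg).prod

/-- the standard Coxeter element -/
def cs (n : ℕ) : Perm ℤ := ((List.range n).map sg).prod

/-- `l` is a word for `c` over the reflections -/
def IsWord (n : ℕ) (c : Perm ℤ) (l : List (Perm ℤ)) : Prop := (∀ t ∈ l, t ∈ Rfl n) ∧ l.prod = c

/-- `l` is a reduced word for `c` over the reflections -/
def IsRed (n : ℕ) (c : Perm ℤ) (l : List (Perm ℤ)) : Prop :=
  IsWord n c l ∧ ∀ l', IsWord n c l' → l.length ≤ l'.length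

/-- a Hurwitz move -/
def Step {G : Type} [Group G] (l l' : List G) : Prop :=
  ∃ (a b : List G) (s t : G), l = a ++ s :: t :: b ∧
    (l' = a ++ (s * t * s) :: s :: b ∨ l' = a ++ t :: (t * s * t) :: b)

/-- `l'` is obtained from `l` by `k` Hurwitz moves -/
inductive Reach {G : Type} [Group G] : ℕ → List G → List G → Prop
  | refl (l : List G) : Reach 0 l l
  | step {k : ℕ} {l l' l'' : List G} : Step l l' → Reach k l' l'' → Reach (k + 1) l l''

/-- diameters -/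
def Df (t : Perm ℤ) : Prop := ∃ a : ℤ, a ≠ 0 ∧ t = df a

/-- the other reflections -/
def Nd (t : Perm ℤ) : Prop := ∃ a b : ℤ, a ≠ 0 ∧ b ≠ 0 ∧ a ≠ b ∧ a ≠ -b ∧ t = nd a b

/-! ### Abstract root systems -/

/-- an abstract form of the reflections and their roots -/
structure RS (G : Type) [Group G] (V : Type) [AddCommGroup V] [Module ℚ V] where
  T : Set G
  α : G → V
  inv : ∀ t ∈ T, t * t = 1
  conj : ∀ s ∈ T, ∀ t ∈ T, s * t * s ∈ T
  root : ∀ s ∈ T, ∀ t ∈ T, ∃ k k' : ℚ, k ≠ 0 ∧ α (s * t * s) = k • α t + k' • α s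

/-- the span of the roots of a word -/
def RS.sp {G : Type} [Group G] {V : Type} [AddCommGroup V] [Module ℚ V] (R : RS G V)
    (l : List G) : Submodule ℚ V := Submodule.span ℚ {v | ∃ t ∈ l, v = R.α t}

/-- brick LEAD: a vector `g ≠ 0` is not in the span of the other roots if a suitable letter is
moved to the end -/
def StmLead : Prop := ∀ (G : Type) [Group G] (V : Type) [AddCommGroup V] [Module ℚ V]
  [FiniteDimensional ℚ V] (R : RS G V) (l : List G), (∀ t ∈ l, t ∈ R.T) →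
  Module.finrank ℚ (R.sp l) = l.length → ∀ g ∈ R.sp l, g ≠ 0 →
  ∃ (u : List G) (t : G), (∀ x ∈ u, x ∈ R.T) ∧ t ∈ l ∧ u.prod * t = l.prod ∧
    u.length + 1 = l.length ∧ g ∉ R.sp u ∧ R.sp (u ++ [t]) = R.sp l ∧
    (∀ s l1, l = s :: l1 → g ∉ R.sp [s] → t ∈ l1)

/-- brick OPP: existence of words with a flag opposite to a given flag -/
def StmOpp : Prop := ∀ (G : Type) [Group G] (V : Type) [AddCommGroup V] [Module ℚ V]
  [FiniteDimensional ℚ V] (R : RS G V) (n : ℕ) (u : List G) (t : G), u.length + 1 = n →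
  (∀ x ∈ u, x ∈ R.T) → t ∈ R.T → Module.finrank ℚ (R.sp (u ++ [t])) = n →
  ∀ F : ℕ → Submodule ℚ V, (∀ j, j ≤ n → Module.finrank ℚ (F j) = j) →
  (∀ i j, i ≤ j → j ≤ n → F i ≤ F j) → F n ≤ R.sp (u ++ [t]) → ¬ F 1 ≤ R.sp u →
  ∃ u' : List G, (∀ x ∈ u', x ∈ R.T) ∧ u'.length = u.length ∧ u'.prod = u.prod ∧
    ∀ i, i ≤ n → R.sp ((u' ++ [t]).take i) ⊓ F (n - i) = ⊥

/-- brick POT: distance between words with opposite flags -/
def StmPot : Prop := ∀ (G : Type) [Group G] (V : Type) [AddCommGroup V] [Module ℚ V]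
  [FiniteDimensional ℚ V] (R : RS G V) (dm : G → Prop),
  (∀ s ∈ R.T, ∀ t ∈ R.T, (dm (s * t * s) ↔ dm t)) →
  ∀ (n : ℕ) (v w : List G), v.length = n → w.length = n → (∀ t ∈ v, t ∈ R.T) →
  Module.finrank ℚ (R.sp v) = n →
  (∀ i, i ≤ n → R.sp (w.take i) ⊓ R.sp (v.take (n - i)) = ⊥) →
  ∀ p q : ℕ, p < n → q < n → (∀ i t, v[i]? = some t → (dm t ↔ i = p)) →
  (∀ i t, w[i]? = some t → (dm t ↔ i = q)) →
  ∀ k, Reach k v w → n.choose 2 ≤ k ∧ (p + q + 1 ≠ n → n.choose 2 + 1 ≤ k)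

/-! ### Coxeter elements -/

/-- brick TRANS: Coxeter elements act transitively -/
def StmTrans : Prop := ∀ (n : ℕ) (c : Perm ℤ), IsCox n c → IsB n c ∧
  ∀ x y : ℤ, 1 ≤ |x| → |x| ≤ n → 1 ≤ |y| → |y| ≤ n → ∃ k : ℕ, (c ^ k) x = y

/-- brick CONJ: all Coxeter elements are conjugate -/
def StmConj : Prop := ∀ (n : ℕ) (c : Perm ℤ), 1 ≤ n → IsCox n c →
  ∃ g, IsB n g ∧ c = g * cs n * g⁻¹

/-- brick SW: the standard Coxeter element needs `2 n - 1` transpositions -/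
def StmSw : Prop := ∀ (n : ℕ) (l : List (Perm ℤ)), 1 ≤ n →
  (∀ t ∈ l, ∃ a b : ℤ, t = swap a b) → l.prod = cs n → 2 * n ≤ l.length + 1

/-- brick ONE: there is exactly one diameter -/
def StmOne : Prop := ∀ (n : ℕ) (l : List (Perm ℤ)), 1 ≤ n → (∀ t ∈ l, Df t ∨ Nd t) →
  l.length = n → l.prod = cs n →
  (∃ p, p < n ∧ ∀ i t, l[i]? = some t → (Df t ↔ i = p)) ∧
  (∀ (a b : List (Perm ℤ)) (x y : ℤ), x ≠ 0 → y ≠ 0 → x ≠ y → x ≠ -y →
    l ≠ a ++ nd x y :: nd x y :: b ∧ l ≠ a ++ nd x y :: nd x (-y) :: b)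

/-! ### The graph -/

/-- the Hurwitz graph of `B_n` with respect to the Coxeter element `c` -/
def hurwitz (n : ℕ) (c : Perm ℤ) : SimpleGraph {l : List (Perm ℤ) // IsRed n c l} :=
  SimpleGraph.fromRel (fun l l' => Step l.1 l'.1)

/-- the final statement -/
def StmMain : Prop := ∀ n : ℕ, 2 ≤ n → ∀ c : Perm ℤ, IsCox n c →
  (hurwitz n c).radius = ((n.choose 2 + 1 : ℕ) : ℕ∞)

end Pool.Agent.K3h92.Hz
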