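import Pool.Agent.K3h92.Hz.Stm

/-!
# Basic facts on reflections and Hurwitz moves
-/

set_option autoImplicit false

namespace Pool.Agent.K3h92.Hz

open Equiv

/-- at most `k` moves -/
def Rch {G : Type} [Group G] (k : ℕ) (l l' : List G) : Prop := ∃ j, j ≤ k ∧ Reach j l l'

section moves

variable {G : Type} [Group G]

lemma Reach.trans {j k : ℕ} {l l' l'' : List G} (h : Reach j l l') (h' : Reach k l' l'') :
    Reach (j + k) l l'' := by
  induction h with
  | refl l => rwa [Nat.zero_add]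
  | step hs _ ih =>
    rw [Nat.add_right_comm]
    exact Reach.step hs (ih h')

lemma Step.ctx {l l' : List G} (a b : List G) (h : Step l l') : Step (a ++ l ++ b) (a ++ l' ++ b) := by
  obtain ⟨c, d, s, t, rfl, h | h⟩ := h
  · exact ⟨a ++ c, d ++ b, s, t, by simp, Or.inl (by simp [h])⟩
  · exact ⟨a ++ c, d ++ b, s, t, by simp, Or.inr (by simp [h])⟩

lemma Reach.ctx {k : ℕ} {l l' : List G} (a b : List G) (h : Reach k l l') :
    Reach k (a ++ l ++ b) (a ++ l' ++ b) := by
  induction h with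
  | refl l => exact Reach.refl _
  | step hs _ ih => exact Reach.step (hs.ctx a b) ih

lemma Rch.refl (k : ℕ) (l : List G) : Rch k l l := ⟨0, Nat.zero_le _, Reach.refl l⟩

lemma Rch.trans {j k : ℕ} {l l' l'' : List G} (h : Rch j l l') (h' : Rch k l' l'') :
    Rch (j + k) l l'' := by
  obtain ⟨i, hi, h⟩ := h
  obtain ⟨i', hi', h'⟩ := h'
  exact ⟨i + i', by omega, h.trans h'⟩

lemma Rch.mono {j k : ℕ} {l l' : List G} (h : Rch j l l') (hjk : j ≤ k) : Rch k l l' := by
  obtain ⟨i, hi, h⟩ := h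
  exact ⟨i, by omega, h⟩

lemma Rch.ctx {k : ℕ} {l l' : List G} (a b : List G) (h : Rch k l l') :
    Rch k (a ++ l ++ b) (a ++ l' ++ b) := by
  obtain ⟨i, hi, h⟩ := h
  exact ⟨i, hi, h.ctx a b⟩

lemma Rch.one {l l' : List G} (h : Step l l') : Rch 1 l l' :=
  ⟨1, le_rfl, Reach.step h (Reach.refl _)⟩

lemma Step.length {l l' : List G} (h : Step l l') : l'.length = l.length := by
  obtain ⟨c, d, s, t, rfl, h | h⟩ := h <;> simp [h]

lemma Reach.length {k : ℕ} {l l' : List G} (h : Reach k l l') : l'.length = l.length := by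
  induction h with
  | refl l => rfl
  | step hs _ ih => rw [ih, hs.length]

end moves

lemma neg_ne {a : ℤ} (h : a ≠ 0) : a ≠ -a := by omega

lemma df_apply_self (a : ℤ) : df a a = -a := swap_apply_left _ _

lemma df_apply_neg (a : ℤ) : df a (-a) = a := swap_apply_right _ _

lemma df_apply_of {a x : ℤ} (h : x ≠ a) (h' : x ≠ -a) : df a x = x := swap_apply_of_ne_of_ne h h'

lemma df_odd (a x : ℤ) : df a (-x) = - df a x := by
  by_cases h : x = a
  · subst h; rw [df_apply_neg, df_apply_self, neg_neg]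
  · by_cases h' : x = -a
    · subst h'; rw [neg_neg, df_apply_self, df_apply_neg]
    · rw [df_apply_of h h', df_apply_of (by omega) (by omega)]

section

variable {a b : ℤ}

lemma nd_left (ha : a ≠ 0) (hab' : a ≠ -b) : nd a b a = b := by
  unfold nd
  rw [Perm.mul_apply, swap_apply_of_ne_of_ne (neg_ne ha) hab', swap_apply_left]

lemma nd_right (hb : b ≠ 0) (hab' : a ≠ -b) : nd a b b = a := by
  unfold nd
  rw [Perm.mul_apply, swap_apply_of_ne_of_ne (by omega) (neg_ne hb), swap_apply_right]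

lemma nd_neg_left (hb : b ≠ 0) (hab' : a ≠ -b) : nd a b (-a) = -b := by
  unfold nd
  rw [Perm.mul_apply, swap_apply_left, swap_apply_of_ne_of_ne (by omega) (by omega)]

lemma nd_neg_right (ha : a ≠ 0) (hab' : a ≠ -b) : nd a b (-b) = -a := by
  unfold nd
  rw [Perm.mul_apply, swap_apply_right, swap_apply_of_ne_of_ne (by omega) (by omega)]

lemma nd_of {x : ℤ} (h1 : x ≠ a) (h2 : x ≠ b) (h3 : x ≠ -a) (h4 : x ≠ -b) : nd a b x = x := by
  unfold nd
  rw [Perm.mul_apply, swap_apply_of_ne_of_ne h3 h4, swap_apply_of_ne_of_ne h1 h2]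

lemma nd_odd (ha : a ≠ 0) (hb : b ≠ 0) (hab' : a ≠ -b) (x : ℤ) :
    nd a b (-x) = - nd a b x := by
  by_cases h1 : x = a
  · subst h1; rw [nd_left ha hab', nd_neg_left hb hab']
  by_cases h2 : x = b
  · subst h2; rw [nd_right hb hab', nd_neg_right ha hab']
  by_cases h3 : x = -a
  · subst h3; rw [neg_neg, nd_left ha hab', nd_neg_left hb hab', neg_neg]
  by_cases h4 : x = -b
  · subst h4; rw [neg_neg, nd_right hb hab', nd_neg_right ha hab', neg_neg]
  rw [nd_of h1 h2 h3 h4, nd_of (by omega) (by omega) (by omega) (by omega)]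

lemma nd_comm (hb : b ≠ 0) (ha : a ≠ 0) (hab' : a ≠ -b) : nd a b = nd b a := by
  ext x
  by_cases h1 : x = a
  · subst h1; rw [nd_left ha hab', nd_right ha (by omega)]
  by_cases h2 : x = b
  · subst h2; rw [nd_right hb hab', nd_left hb (by omega)]
  by_cases h3 : x = -a
  · subst h3; rw [nd_neg_left hb hab', nd_neg_right hb (by omega)]
  by_cases h4 : x = -b
  · subst h4; rw [nd_neg_right ha hab', nd_neg_left ha (by omega)]
  rw [nd_of h1 h2 h3 h4, nd_of (by omega) (by omega) (by omega) (by omega)]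

lemma nd_neg_neg (ha : a ≠ 0) (hb : b ≠ 0) (hab' : a ≠ -b) : nd (-a) (-b) = nd a b := by
  ext x
  by_cases h1 : x = a
  · subst h1; rw [nd_left ha hab']
    have := nd_neg_left (a := -x) (b := -b) (by omega) (by omega)
    rwa [neg_neg, neg_neg] at this
  by_cases h2 : x = b
  · subst h2; rw [nd_right hb hab']
    have := nd_neg_right (a := -a) (b := -x) (by omega) (by omega)
    rwa [neg_neg, neg_neg] at this
  by_cases h3 : x = -a
  · subst h3; rw [nd_neg_left hb hab', nd_left (by omega) (by omega)]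
  by_cases h4 : x = -b
  · subst h4; rw [nd_neg_right ha hab', nd_right (by omega) (by omega)]
  rw [nd_of h1 h2 h3 h4, nd_of (by omega) (by omega) (by omega) (by omega)]

end

lemma df_neg (a : ℤ) : df (-a) = df a := by
  unfold df
  rw [neg_neg, swap_comm]

lemma df_inv (a : ℤ) : df a * df a = 1 := swap_mul_self _ _

lemma nd_inv {a b : ℤ} (ha : a ≠ 0) (hb : b ≠ 0) (hab' : a ≠ -b) :
    nd a b * nd a b = 1 := by
  ext x
  rw [Perm.mul_apply, Perm.one_apply]
  by_cases h1 : x = a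
  · subst h1; rw [nd_left ha hab', nd_right hb hab']
  by_cases h2 : x = b
  · subst h2; rw [nd_right hb hab', nd_left ha hab']
  by_cases h3 : x = -a
  · subst h3; rw [nd_neg_left hb hab', nd_neg_right ha hab']
  by_cases h4 : x = -b
  · subst h4; rw [nd_neg_right ha hab', nd_neg_left hb hab']
  rw [nd_of h1 h2 h3 h4, nd_of h1 h2 h3 h4]

lemma conj_swap (f : Perm ℤ) (a b : ℤ) : f * swap a b * f⁻¹ = swap (f a) (f b) := by
  rw [mul_swap_eq_swap_mul, mul_assoc, mul_inv_cancel, mul_one]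

lemma conj_df (f : Perm ℤ) (hf : ∀ x, f (-x) = -f x) (a : ℤ) : f * df a * f⁻¹ = df (f a) := by
  unfold df
  rw [conj_swap, hf]

lemma conj_nd (f : Perm ℤ) (hf : ∀ x, f (-x) = -f x) (a b : ℤ) :
    f * nd a b * f⁻¹ = nd (f a) (f b) := by
  unfold nd
  rw [← hf, ← hf, ← conj_swap f a b, ← conj_swap f (-a) (-b)]
  group

/-- letters -/
def Rf (t : Perm ℤ) : Prop := Df t ∨ Nd t

lemma Rf.odd {t : Perm ℤ} (h : Rf t) (x : ℤ) : t (-x) = -t x := by
  rcases h with ⟨a, ha, rfl⟩ | ⟨a, b, ha, hb, -, hab', rfl⟩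
  · exact df_odd a x
  · exact nd_odd ha hb hab' x

lemma Rf.inv {t : Perm ℤ} (h : Rf t) : t * t = 1 := by
  rcases h with ⟨a, ha, rfl⟩ | ⟨a, b, ha, hb, -, hab', rfl⟩
  · exact df_inv a
  · exact nd_inv ha hb hab'

lemma Rf.inv_eq {t : Perm ℤ} (h : Rf t) : t⁻¹ = t := inv_eq_of_mul_eq_one_left h.inv

lemma Rf.app2 {t : Perm ℤ} (h : Rf t) (x : ℤ) : t (t x) = x := by
  rw [← Perm.mul_apply, h.inv, Perm.one_apply]

lemma conj_df' {t : Perm ℤ} (h : Rf t) (a : ℤ) : t * df a * t = df (t a) := by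
  have := conj_df t h.odd a
  rwa [h.inv_eq] at this

lemma conj_nd' {t : Perm ℤ} (h : Rf t) (a b : ℤ) : t * nd a b * t = nd (t a) (t b) := by
  have := conj_nd t h.odd a b
  rwa [h.inv_eq] at this

lemma odd_zero {f : Perm ℤ} (hf : ∀ x, f (-x) = -f x) : f 0 = 0 := by
  have := hf 0
  rw [neg_zero] at this
  omega

lemma odd_ne_zero {f : Perm ℤ} (hf : ∀ x, f (-x) = -f x) {x : ℤ} (hx : x ≠ 0) : f x ≠ 0 := by
  intro h
  rw [← odd_zero hf] at h
  exact hx (f.injective h)

lemma Df.conj {t f : Perm ℤ} (h : Df t) (hf : ∀ x, f (-x) = -f x) : Df (f * t * f⁻¹) := by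
  obtain ⟨a, ha, rfl⟩ := h
  exact ⟨f a, odd_ne_zero hf ha, conj_df f hf a⟩

lemma Nd.conj {t f : Perm ℤ} (h : Nd t) (hf : ∀ x, f (-x) = -f x) : Nd (f * t * f⁻¹) := by
  obtain ⟨a, b, ha, hb, hab, hab', rfl⟩ := h
  refine ⟨f a, f b, odd_ne_zero hf ha, odd_ne_zero hf hb, fun h => hab (f.injective h), ?_,
    conj_nd f hf a b⟩
  intro h
  rw [← hf] at h
  exact hab' (f.injective h)

lemma Df.conj' {s t : Perm ℤ} (h : Df t) (hs : Rf s) : Df (s * t * s) := by
  have := h.conj hs.odd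
  rwa [hs.inv_eq] at this

lemma Nd.conj' {s t : Perm ℤ} (h : Nd t) (hs : Rf s) : Nd (s * t * s) := by
  have := h.conj hs.odd
  rwa [hs.inv_eq] at this

lemma Rf.conj' {s t : Perm ℤ} (h : Rf t) (hs : Rf s) : Rf (s * t * s) := by
  rcases h with h | h
  · exact Or.inl (h.conj' hs)
  · exact Or.inr (h.conj' hs)

lemma not_Df_Nd {t : Perm ℤ} (h : Df t) (h' : Nd t) : False := by
  obtain ⟨a, ha, rfl⟩ := h
  obtain ⟨x, y, hx, hy, hxy, hxy', he⟩ := h'
  have h1 : df a x = y := by rw [he, nd_left hx hxy']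
  by_cases h2 : x = a
  · subst h2; rw [df_apply_self] at h1; omega
  · by_cases h3 : x = -a
    · subst h3; rw [df_apply_neg] at h1; omega
    · rw [df_apply_of h2 h3] at h1; exact hxy h1

lemma Df_conj_iff {s t : Perm ℤ} (hs : Rf s) (ht : Rf t) : Df (s * t * s) ↔ Df t := by
  constructor
  · intro h
    rcases ht with ht | ht
    · exact ht
    · exact (not_Df_Nd h (ht.conj' hs)).elim
  · exact fun h => h.conj' hs

lemma Nd.eq_of_moves {t : Perm ℤ} (h : Nd t) {m : ℤ} (hm : t m ≠ m) :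
    m ≠ 0 ∧ t m ≠ 0 ∧ m ≠ t m ∧ m ≠ -t m ∧ t = nd m (t m) := by
  obtain ⟨a, b, ha, hb, hab, hab', rfl⟩ := h
  have hm4 : m = a ∨ m = b ∨ m = -a ∨ m = -b := by
    by_contra hc
    push Not at hc
    exact hm (nd_of hc.1 hc.2.1 hc.2.2.1 hc.2.2.2)
  rcases hm4 with rfl | rfl | rfl | rfl
  · rw [nd_left ha hab']; exact ⟨ha, hb, hab, hab', rfl⟩
  · rw [nd_right hb hab']
    exact ⟨hb, ha, hab.symm, by omega, nd_comm hb ha hab'⟩
  · rw [nd_neg_left hb hab']
    exact ⟨by omega, by omega, by omega, by omega, (nd_neg_neg ha hb hab').symm⟩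
  · rw [nd_neg_right ha hab']
    exact ⟨by omega, by omega, by omega, by omega, by
      rw [nd_neg_neg hb ha (by omega), nd_comm ha hb (by omega)]⟩

lemma Df.eq_of_moves {t : Perm ℤ} (h : Df t) {m : ℤ} (hm : t m ≠ m) : m ≠ 0 ∧ t = df m := by
  obtain ⟨a, ha, rfl⟩ := h
  have hm2 : m = a ∨ m = -a := by
    by_contra hc
    push Not at hc
    exact hm (df_apply_of hc.1 hc.2)
  rcases hm2 with rfl | rfl
  · exact ⟨ha, rfl⟩
  · exact ⟨by omega, (df_neg a).symm⟩

lemma Step.prod {l l' : List (Perm ℤ)} (h : Step l l') (hl : ∀ t ∈ l, Rf t) :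
    l'.prod = l.prod := by
  obtain ⟨c, d, s, t, rfl, h | h⟩ := h
  · have hs : s * s = 1 := (hl s (by simp)).inv
    simp only [h, List.prod_append, List.prod_cons]
    rw [show s * t * s * (s * d.prod) = s * t * (s * s) * d.prod by group, hs]
    group
  · have ht : t * t = 1 := (hl t (by simp)).inv
    simp only [h, List.prod_append, List.prod_cons]
    rw [show t * (t * s * t * d.prod) = (t * t) * s * t * d.prod by group, ht]
    group

lemma Step.rf {l l' : List (Perm ℤ)} (h : Step l l') (hl : ∀ t ∈ l, Rf t) : ∀ t ∈ l', Rf t := by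
  obtain ⟨c, d, s, t, rfl, h | h⟩ := h
  · have hs : Rf s := hl s (by simp)
    have ht : Rf t := hl t (by simp)
    intro x hx
    rw [h] at hx
    simp only [List.mem_append, List.mem_cons] at hx
    rcases hx with hx | rfl | rfl | hx
    · exact hl x (by simp [hx])
    · exact ht.conj' hs
    · exact hs
    · exact hl x (by simp [hx])
  · have hs : Rf s := hl s (by simp)
    have ht : Rf t := hl t (by simp)
    intro x hx
    rw [h] at hx
    simp only [List.mem_append, List.mem_cons] at hx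
    rcases hx with hx | rfl | rfl | hx
    · exact hl x (by simp [hx])
    · exact ht
    · exact hs.conj' ht
    · exact hl x (by simp [hx])

lemma Step.nd {l l' : List (Perm ℤ)} (h : Step l l') (hl : ∀ t ∈ l, Nd t) : ∀ t ∈ l', Nd t := by
  obtain ⟨c, d, s, t, rfl, h | h⟩ := h
  · have hs : Nd s := hl s (by simp)
    have ht : Nd t := hl t (by simp)
    intro x hx
    rw [h] at hx
    simp only [List.mem_append, List.mem_cons] at hx
    rcases hx with hx | rfl | rfl | hx
    · exact hl x (by simp [hx])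
    · exact ht.conj' (Or.inr hs)
    · exact hs
    · exact hl x (by simp [hx])
  · have hs : Nd s := hl s (by simp)
    have ht : Nd t := hl t (by simp)
    intro x hx
    rw [h] at hx
    simp only [List.mem_append, List.mem_cons] at hx
    rcases hx with hx | rfl | rfl | hx
    · exact hl x (by simp [hx])
    · exact ht
    · exact hs.conj' (Or.inr ht)
    · exact hl x (by simp [hx])

lemma Reach.rf {k : ℕ} {l l' : List (Perm ℤ)} (h : Reach k l l') (hl : ∀ t ∈ l, Rf t) :
    ∀ t ∈ l', Rf t := by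
  induction h with
  | refl l => exact hl
  | step hs _ ih => exact ih (hs.rf hl)

lemma Reach.nd {k : ℕ} {l l' : List (Perm ℤ)} (h : Reach k l l') (hl : ∀ t ∈ l, Nd t) :
    ∀ t ∈ l', Nd t := by
  induction h with
  | refl l => exact hl
  | step hs _ ih => exact ih (hs.nd hl)

lemma Reach.prod {k : ℕ} {l l' : List (Perm ℤ)} (h : Reach k l l') (hl : ∀ t ∈ l, Rf t) :
    l'.prod = l.prod := by
  induction h with
  | refl l => rfl
  | step hs _ ih => rw [ih (hs.rf hl), hs.prod hl]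

lemma Rch.length {k : ℕ} {l l' : List (Perm ℤ)} (h : Rch k l l') : l'.length = l.length := by
  obtain ⟨j, -, h⟩ := h; exact h.length

lemma Rch.rf {k : ℕ} {l l' : List (Perm ℤ)} (h : Rch k l l') (hl : ∀ t ∈ l, Rf t) :
    ∀ t ∈ l', Rf t := by
  obtain ⟨j, -, h⟩ := h; exact h.rf hl

lemma Rch.nd {k : ℕ} {l l' : List (Perm ℤ)} (h : Rch k l l') (hl : ∀ t ∈ l, Nd t) :
    ∀ t ∈ l', Nd t := by
  obtain ⟨j, -, h⟩ := h; exact h.nd hl

lemma Rch.prod {k : ℕ} {l l' : List (Perm ℤ)} (h : Rch k l l') (hl : ∀ t ∈ l, Rf t) :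
    l'.prod = l.prod := by
  obtain ⟨j, -, h⟩ := h; exact h.prod hl

end Pool.Agent.K3h92.Hz
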