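import Pool.Agent.K3h92.Hz.LB

/-!
# Assembly: the radius of the Hurwitz graph of type B
-/

set_option autoImplicit false

namespace Pool.Agent.K3h92.Hz

open Equiv

lemma Step.symm {l l' : List (Perm ℤ)} (h : Step l l') (hl : ∀ t ∈ l, Rf t) : Step l' l := by
  obtain ⟨a, b, s, t, rfl, rfl | rfl⟩ := h
  · have hs : s * s = 1 := (hl s (by simp)).inv
    refine ⟨a, b, s * t * s, s, rfl, Or.inr ?_⟩
    rw [show s * (s * t * s) * s = (s * s) * t * (s * s) by group, hs]
    simp
  · have ht : t * t = 1 := (hl t (by simp)).inv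
    refine ⟨a, b, t, t * s * t, rfl, Or.inl ?_⟩
    rw [show t * (t * s * t) * t = (t * t) * s * (t * t) by group, ht]
    simp

lemma Step.cj {l l' : List (Perm ℤ)} (f : Perm ℤ) (h : Step l l') : Step (cj f l) (cj f l') := by
  obtain ⟨a, b, s, t, rfl, rfl | rfl⟩ := h
  · refine ⟨Hz.cj f a, Hz.cj f b, f * s * f⁻¹, f * t * f⁻¹, by simp [Hz.cj], Or.inl ?_⟩
    simp only [Hz.cj, List.map_append, List.map_cons]
    rw [show f * s * f⁻¹ * (f * t * f⁻¹) * (f * s * f⁻¹) = f * (s * t * s) * f⁻¹ by group]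
  · refine ⟨Hz.cj f a, Hz.cj f b, f * s * f⁻¹, f * t * f⁻¹, by simp [Hz.cj], Or.inr ?_⟩
    simp only [Hz.cj, List.map_append, List.map_cons]
    rw [show f * t * f⁻¹ * (f * s * f⁻¹) * (f * t * f⁻¹) = f * (t * s * t) * f⁻¹ by group]

lemma Reach.cj {k : ℕ} {l l' : List (Perm ℤ)} (f : Perm ℤ) (h : Reach k l l') :
    Reach k (Hz.cj f l) (Hz.cj f l') := by
  induction h with
  | refl l => exact Reach.refl _
  | step hs _ ih => exact Reach.step (hs.cj f) ih

lemma cj_cj (f g : Perm ℤ) (l : List (Perm ℤ)) : cj f (cj g l) = cj (f * g) l := by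
  unfold cj
  rw [List.map_map]
  apply List.map_congr_left
  intro t _
  simp only [Function.comp_apply]
  group

lemma cj_one (l : List (Perm ℤ)) : cj 1 l = l := by
  unfold cj
  simp

/-- words of the standard Coxeter element -/
def QQ (n : ℕ) (l : List (Perm ℤ)) : Prop := IsWord n (cs n) l ∧ l.length = n

lemma QQ_gd (h1 : StmOne) (n : ℕ) (hn : 1 ≤ n) : Gd (QQ n) where
  rf l hl t ht := Rfl.rf (hl.1.1 t ht)
  step l l' hl h := by
    refine ⟨⟨?_, ?_⟩, ?_⟩
    · obtain ⟨c, d, s, t, rfl, rfl | rfl⟩ := h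
      · intro x hx
        simp only [List.mem_append, List.mem_cons] at hx
        rcases hx with hx | rfl | rfl | hx
        · exact hl.1.1 x (by simp [hx])
        · exact Rfl.conj' (hl.1.1 s (by simp)) (hl.1.1 t (by simp))
        · exact hl.1.1 _ (by simp)
        · exact hl.1.1 x (by simp [hx])
      · intro x hx
        simp only [List.mem_append, List.mem_cons] at hx
        rcases hx with hx | rfl | rfl | hx
        · exact hl.1.1 x (by simp [hx])
        · exact hl.1.1 _ (by simp)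
        · exact Rfl.conj' (hl.1.1 t (by simp)) (hl.1.1 s (by simp))
        · exact hl.1.1 x (by simp [hx])
    · rw [h.prod (fun t ht => Rfl.rf (hl.1.1 t ht)), hl.1.2]
    · rw [h.length, hl.2]
  nobad1 a b x y hx hy hxy hxy' hQ :=
    ((h1 n _ hn (fun t ht => Rfl.rf (hQ.1.1 t ht)) hQ.2 hQ.1.2).2 a b x y hx hy hxy hxy').1 rfl
  nobad2 a b x y hx hy hxy hxy' hQ :=
    ((h1 n _ hn (fun t ht => Rfl.rf (hQ.1.1 t ht)) hQ.2 hQ.1.2).2 a b x y hx hy hxy hxy').2 rfl
  one a b c s t hs ht hQ := by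
    obtain ⟨p, -, hp⟩ := (h1 n _ hn (fun t ht => Rfl.rf (hQ.1.1 t ht)) hQ.2 hQ.1.2).1
    have e1 := (hp a.length s (by simp)).mp hs
    have e2 := (hp (a.length + 1 + b.length) t (by
      rw [List.getElem?_append_right (by omega)]
      rw [show a.length + 1 + b.length - a.length = b.length + 1 by omega]
      simp)).mp ht
    omega

section graph

variable {n : ℕ} {c : Perm ℤ}

lemma adj_step {a b : {l : List (Perm ℤ) // IsRed n c l}} (h : (hurwitz n c).Adj a b) :
    Step a.1 b.1 := by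
  unfold hurwitz at h
  rw [SimpleGraph.fromRel_adj] at h
  rcases h.2 with h | h
  · exact h
  · exact h.symm (fun t ht => Rfl.rf (b.2.1.1 t ht))

lemma walk_reach {a b : {l : List (Perm ℤ) // IsRed n c l}} (w : (hurwitz n c).Walk a b) :
    Reach w.length a.1 b.1 := by
  induction w with
  | nil => exact Reach.refl _
  | cons h _ ih => exact Reach.step (adj_step h) ih

lemma step_red {l l' : List (Perm ℤ)} (h : Step l l') (hl : IsRed n c l) : IsRed n c l' := by
  refine ⟨⟨?_, ?_⟩, ?_⟩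
  · obtain ⟨a, d, s, t, rfl, rfl | rfl⟩ := h
    · intro x hx
      simp only [List.mem_append, List.mem_cons] at hx
      rcases hx with hx | rfl | rfl | hx
      · exact hl.1.1 x (by simp [hx])
      · exact Rfl.conj' (hl.1.1 s (by simp)) (hl.1.1 t (by simp))
      · exact hl.1.1 _ (by simp)
      · exact hl.1.1 x (by simp [hx])
    · intro x hx
      simp only [List.mem_append, List.mem_cons] at hx
      rcases hx with hx | rfl | rfl | hx
      · exact hl.1.1 x (by simp [hx])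
      · exact hl.1.1 _ (by simp)
      · exact Rfl.conj' (hl.1.1 t (by simp)) (hl.1.1 s (by simp))
      · exact hl.1.1 x (by simp [hx])
  · rw [h.prod (fun t ht => Rfl.rf (hl.1.1 t ht)), hl.1.2]
  · intro l'' hl''
    rw [h.length]
    exact hl.2 l'' hl''

lemma reach_edist {k : ℕ} {l l' : List (Perm ℤ)} (h : Reach k l l') :
    ∀ (hl : IsRed n c l) (hl' : IsRed n c l'),
      (hurwitz n c).edist ⟨l, hl⟩ ⟨l', hl'⟩ ≤ (k : ℕ∞) := by
  induction h with
  | refl l =>
    intro hl hl'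
    rw [SimpleGraph.edist_self]
    exact zero_le
  | @step k l l1 l2 hs _ ih =>
    intro hl hl'
    have hl1 := step_red hs hl
    have h1 : (hurwitz n c).edist ⟨l, hl⟩ ⟨l1, hl1⟩ ≤ 1 := by
      rw [SimpleGraph.edist_le_one_iff_adj_or_eq]
      by_cases he : l = l1
      · right; exact Subtype.ext he
      · left
        unfold hurwitz
        rw [SimpleGraph.fromRel_adj]
        exact ⟨fun h => he (congrArg Subtype.val h), Or.inl hs⟩
    calc (hurwitz n c).edist ⟨l, hl⟩ ⟨l2, hl'⟩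
        ≤ (hurwitz n c).edist ⟨l, hl⟩ ⟨l1, hl1⟩ + (hurwitz n c).edist ⟨l1, hl1⟩ ⟨l2, hl'⟩ :=
          SimpleGraph.edist_triangle
      _ ≤ 1 + (k : ℕ∞) := add_le_add h1 (ih hl1 hl')
      _ = ((k + 1 : ℕ) : ℕ∞) := by push_cast; rw [add_comm]

end graph

/-- the final assembly -/
theorem main (hL : StmLead) (hO : StmOpp) (hP : StmPot) (hT : StmTrans) (hC : StmConj)
    (h1 : StmOne) : StmMain := by
  intro n hn c hc
  obtain ⟨m, rfl⟩ : ∃ m, n = m + 1 := ⟨n - 1, by omega⟩
  set n := m + 1 with hndef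
  obtain ⟨g, hg, hgc⟩ := hC n c (by omega) hc
  have hred := red_iff hT n c hc
  -- transfer to the standard Coxeter element
  have hto : ∀ l, IsWord n (cs n) l → l.length = n → IsRed n c (cj g l) := by
    intro l hl hll
    rw [hred]
    refine ⟨⟨cj_Rfl hg hl.1, ?_⟩, by rw [cj_length, hll]⟩
    rw [cj_prod, hl.2, hgc]
  have hfrom : ∀ l, IsRed n c l → IsWord n (cs n) (cj g⁻¹ l) ∧ (cj g⁻¹ l).length = n := by
    intro l hl
    rw [hred] at hl
    refine ⟨⟨cj_Rfl hg.inv hl.1.1, ?_⟩, by rw [cj_length, hl.2]⟩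
    rw [cj_prod, hl.1.2, hgc]
    group
  have hback : ∀ l, cj g (cj g⁻¹ l) = l := fun l => by
    rw [cj_cj, mul_inv_cancel, cj_one]
  apply le_antisymm
  · -- the upper bound
    have hv0 := hto (v0 n) (v0_word n) (v0_length n)
    refine (SimpleGraph.radius_le_eccent (u := ⟨cj g (v0 n), hv0⟩)).trans ?_
    rw [SimpleGraph.eccent_le_iff]
    rintro ⟨w, hw⟩
    rw [SimpleGraph.edist_comm]
    obtain ⟨hw1, hw2⟩ := hfrom w hw
    obtain ⟨j, hj, hr⟩ := ub m (QQ n) (QQ_gd h1 n (by omega)) (cj g⁻¹ w) ⟨hw1, hw2⟩ hw2 hw1.2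
    have hr' := hr.cj g
    rw [hback] at hr'
    refine (reach_edist hr' hw hv0).trans ?_
    exact_mod_cast hj
  · -- the lower bound
    refine le_iInf ?_
    rintro ⟨v, hv⟩
    obtain ⟨hv1, hv2⟩ := hfrom v hv
    obtain ⟨w, hw1, hw2, hw3⟩ := lb hL hO hP hT h1 m (by omega) (cj g⁻¹ v) hv1 hv2
    have hw := hto w hw1 hw2
    refine le_trans ?_ (SimpleGraph.edist_le_eccent (v := ⟨cj g w, hw⟩))
    by_contra hcon
    push Not at hcon
    have hne : (hurwitz n c).edist ⟨v, hv⟩ ⟨cj g w, hw⟩ ≠ ⊤ := ne_top_of_lt hcon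
    obtain ⟨p, hp⟩ := SimpleGraph.exists_walk_of_edist_ne_top hne
    rw [← hp] at hcon
    have hlt : p.length < n.choose 2 + 1 := by exact_mod_cast hcon
    have hr := (walk_reach p).cj g⁻¹
    simp only at hr
    rw [cj_cj, inv_mul_cancel, cj_one] at hr
    have h5 : n.choose 2 + 1 ≤ p.length := hw3 p.length hr
    omega

end Pool.Agent.K3h92.Hz
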