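import Pool.Agent.K3h92.Hz.Root

/-!
# The lower bound: existence of words far away
-/

set_option autoImplicit false

namespace Pool.Agent.K3h92.Hz

open Equiv

section

variable {G : Type} [Group G] {V : Type} [AddCommGroup V] [Module ℚ V] (R : RS G V)

lemma sp_append (l l' : List G) : R.sp (l ++ l') = R.sp l ⊔ R.sp l' := by
  induction l with
  | nil => rw [sp_nil]; simp
  | cons t l ih => rw [List.cons_append, sp_cons, sp_cons, ih, sup_assoc]

lemma finrank_take [FiniteDimensional ℚ V] (l : List G)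
    (h : Module.finrank ℚ (R.sp l) = l.length) (j : ℕ) (hj : j ≤ l.length) :
    Module.finrank ℚ (R.sp (l.take j)) = j := by
  have h1 : R.sp l = R.sp (l.take j) ⊔ R.sp (l.drop j) := by
    rw [← sp_append, List.take_append_drop]
  have h2 := Submodule.finrank_add_le_finrank_add_finrank (R.sp (l.take j)) (R.sp (l.drop j))
  rw [← h1, h] at h2
  have h3 := finrank_sp_le R (l.take j)
  have h4 := finrank_sp_le R (l.drop j)
  rw [List.length_take] at h3
  rw [List.length_drop] at h4
  omega

end

lemma cs_lt (n : ℕ) (j : ℤ) (h1 : 1 ≤ j) (h2 : j < n) : cs n j = j + 1 := by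
  induction n with
  | zero => push_cast at h2; omega
  | succ n ih =>
    cases n with
    | zero => push_cast at h2; omega
    | succ n =>
      push_cast at h2
      rw [cs_succ, sg_succ, Perm.mul_apply]
      by_cases hj : j = (n : ℤ) + 1
      · subst hj
        rw [nd_left (by omega) (by omega), cs_fix _ _ (by push_cast; omega)]
      · rw [nd_of hj (by omega) (by omega) (by omega)]
        exact ih (by push_cast; omega)

lemma cs_last (n : ℕ) : cs (n + 1) ((n : ℤ) + 1) = -1 := by
  induction n with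
  | zero => rw [show cs (0 + 1) = df 1 by simp [cs, sg]]; simp [df_apply_self]
  | succ n ih =>
    rw [cs_succ, sg_succ, Perm.mul_apply]
    push_cast
    rw [nd_right (by omega) (by omega), ih]

/-- the second family of words -/
def A1 (m : ℕ) : List (Perm ℤ) := (List.range m).map (fun i => sg (i + 1))

lemma A1_prod (m : ℕ) : (A1 m).prod * df ((m : ℤ) + 1) = cs (m + 1) := by
  induction m with
  | zero => simp [A1, cs, sg]
  | succ m ih =>
    have h1 : (A1 (m + 1)).prod = (A1 m).prod * sg (m + 1) := by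
      unfold A1
      rw [List.range_succ, List.map_append, List.prod_append]
      simp
    rw [h1, cs_succ, ← ih, sg_succ]
    have h2 : (df ((m : ℤ) + 1) : Perm ℤ) =
        nd ((m : ℤ) + 1) ((m : ℤ) + 1 + 1) * df ((m : ℤ) + 1 + 1) *
          nd ((m : ℤ) + 1) ((m : ℤ) + 1 + 1) := by
      have hN : Nd (nd ((m : ℤ) + 1) ((m : ℤ) + 1 + 1)) :=
        ⟨_, _, by omega, by omega, by omega, by omega, rfl⟩
      rw [conj_df' (Or.inr hN), nd_right (by omega) (by omega)]
    have h3 : nd ((m : ℤ) + 1) ((m : ℤ) + 1 + 1) * nd ((m : ℤ) + 1) ((m : ℤ) + 1 + 1) = 1 :=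
      nd_inv (by omega) (by omega) (by omega)
    rw [h2]
    push_cast
    rw [show (A1 m).prod * (nd ((m : ℤ) + 1) ((m : ℤ) + 1 + 1) * df ((m : ℤ) + 1 + 1) *
          nd ((m : ℤ) + 1) ((m : ℤ) + 1 + 1)) * nd ((m : ℤ) + 1) ((m : ℤ) + 1 + 1) =
          (A1 m).prod * nd ((m : ℤ) + 1) ((m : ℤ) + 1 + 1) * df ((m : ℤ) + 1 + 1) *
          (nd ((m : ℤ) + 1) ((m : ℤ) + 1 + 1) * nd ((m : ℤ) + 1) ((m : ℤ) + 1 + 1)) by group, h3,
      mul_one]

/-- conjugation of a word -/
def cj (f : Perm ℤ) (l : List (Perm ℤ)) : List (Perm ℤ) := l.map (fun t => f * t * f⁻¹)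

lemma cj_prod (f : Perm ℤ) (l : List (Perm ℤ)) : (cj f l).prod = f * l.prod * f⁻¹ := by
  induction l with
  | nil => simp [cj]
  | cons t l ih =>
    unfold cj at ih ⊢
    rw [List.map_cons, List.prod_cons, ih, List.prod_cons]
    group

lemma cj_length (f : Perm ℤ) (l : List (Perm ℤ)) : (cj f l).length = l.length := by simp [cj]

lemma cj_Rfl {n : ℕ} {f : Perm ℤ} (hf : IsB n f) {l : List (Perm ℤ)} (h : ∀ t ∈ l, t ∈ Rfl n) :
    ∀ t ∈ cj f l, t ∈ Rfl n := by
  intro t ht
  unfold cj at ht
  rw [List.mem_map] at ht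
  obtain ⟨s, hs, rfl⟩ := ht
  exact Rfl.conj (h s hs) hf

lemma dot_ee (n : ℕ) (x y : ℤ) (hx1 : 1 ≤ |x|) (hx2 : |x| ≤ n) :
    ∑ i : Fin n, ee n x i * ee n y i = (if x = y then 1 else 0) - (if x = -y then 1 else 0) := by
  have key : ∀ x y : ℤ, 1 ≤ x → x ≤ n →
      ∑ i : Fin n, ee n x i * ee n y i = (if x = y then 1 else 0) - (if x = -y then 1 else 0) := by
    intro x y h1 h2
    have hlt : (x - 1).toNat < n := by omega
    rw [Finset.sum_eq_single (⟨(x - 1).toNat, hlt⟩ : Fin n)]
    · have e : ((⟨(x - 1).toNat, hlt⟩ : Fin n) : ℤ) + 1 = x := by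
        simp only
        omega
      simp only [ee]
      simp only at e
      rw [e, if_pos rfl, if_neg (by omega : ¬ x = -x)]
      have h3 : (y = x) ↔ (x = y) := eq_comm
      have h4 : (y = -x) ↔ (x = -y) := by constructor <;> intro h <;> omega
      simp only [h3, h4]
      ring
    · intro i _ hi
      have : ee n x i = 0 := by
        simp only [ee]
        rw [if_neg, if_neg (by omega)]
        · ring
        · intro h
          apply hi
          apply Fin.ext
          simp only
          omega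
      rw [this, zero_mul]
    · intro h; exact absurd (Finset.mem_univ _) h
  rcases le_total 0 x with hx | hx
  · rw [abs_of_nonneg hx] at hx1 hx2
    exact key x y hx1 hx2
  · rw [abs_of_nonpos hx] at hx1 hx2
    have h := key (-x) y hx1 hx2
    have e : ∑ i : Fin n, ee n x i * ee n y i = - ∑ i : Fin n, ee n (-x) i * ee n y i := by
      rw [← Finset.sum_neg_distrib]
      apply Finset.sum_congr rfl
      intro i _
      rw [ee_neg]
      simp only [Pi.neg_apply]
      ring
    rw [e, h]
    have h3 : (-x = y) ↔ (x = -y) := by constructor <;> intro h <;> omega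
    have h4 : (-x = -y) ↔ (x = y) := by constructor <;> intro h <;> omega
    simp only [h3, h4]
    ring

lemma IsB.abs_le {n : ℕ} {f : Perm ℤ} (hf : IsB n f) {x : ℤ} (h1 : 1 ≤ |x|) (h2 : |x| ≤ n) :
    1 ≤ |f x| ∧ |f x| ≤ n := by
  constructor
  · have hx : x ≠ 0 := by
      rintro rfl
      simp at h1
    have := odd_ne_zero hf.1 hx
    have := abs_pos.mpr this
    omega
  · by_contra hc
    push Not at hc
    have := hf.2 (f x) hc
    have := f.injective this
    rw [this] at hc
    omega

/-- the sum vector -/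
noncomputable def Psi (n : ℕ) (f : Perm ℤ) : Fin n → ℚ :=
  ∑ j ∈ Finset.range n, ee n (f ((j : ℤ) + 1))

lemma dot_Psi {n : ℕ} {f : Perm ℤ} (hf : IsB n f) (a : ℤ) (h1 : 1 ≤ a) (h2 : a ≤ n) :
    ∑ i : Fin n, Psi n f i * ee n (f a) i = 1 := by
  unfold Psi
  simp only [Finset.sum_apply, Finset.sum_mul]
  rw [Finset.sum_comm]
  rw [Finset.sum_eq_single ((a - 1).toNat)]
  · have e : (((a - 1).toNat : ℕ) : ℤ) + 1 = a := by omega
    rw [e]
    have hab := hf.abs_le (x := a) (by rw [abs_of_nonneg (by omega)]; exact h1)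
      (by rw [abs_of_nonneg (by omega)]; exact h2)
    rw [dot_ee n _ _ hab.1 hab.2, if_pos rfl, if_neg, sub_zero]
    intro h
    have : f a ≠ 0 := odd_ne_zero hf.1 (by omega)
    omega
  · intro j hj hja
    rw [Finset.mem_range] at hj
    have hab := hf.abs_le (x := (j : ℤ) + 1) (by rw [abs_of_nonneg (by omega)]; omega)
      (by rw [abs_of_nonneg (by omega)]; omega)
    rw [dot_ee n _ _ hab.1 hab.2, if_neg, if_neg, sub_zero]
    · intro h
      rw [← hf.1] at h
      have := f.injective h
      omega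
    · intro h
      have := f.injective h
      omega
  · intro h
    exfalso
    apply h
    rw [Finset.mem_range]
    omega

lemma Psi_succ {m : ℕ} {f : Perm ℤ} (hf : IsB (m + 1) f) :
    Psi (m + 1) (f * cs (m + 1)) = Psi (m + 1) f - (2 : ℚ) • ee (m + 1) (f 1) := by
  unfold Psi
  rw [Finset.sum_range_succ, Finset.sum_range_succ' (fun j => ee (m + 1) (f ((j : ℤ) + 1)))]
  have h1 : ∀ j ∈ Finset.range m, ee (m + 1) ((f * cs (m + 1)) ((j : ℤ) + 1)) =
      ee (m + 1) (f (((j + 1 : ℕ) : ℤ) + 1)) := by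
    intro j hj
    rw [Finset.mem_range] at hj
    rw [Perm.mul_apply, cs_lt _ _ (by omega) (by push_cast; omega)]
    push_cast
    rfl
  rw [Finset.sum_congr rfl h1, Perm.mul_apply, cs_last, hf.1, ee_neg]
  push_cast
  module

/-- for a nonzero vector some rotated word ends with a diameter and the other letters do not
span the vector -/
lemma exists_diam (ht : StmTrans) (m : ℕ) (ρ : Fin (m + 1) → ℚ) (hρ : ρ ≠ 0) :
    ∃ k : ℕ, ρ ∉ (RB (m + 1)).sp (cj (cs (m + 1) ^ k) (A1 m)) := by
  by_contra hc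
  push Not at hc
  have hB : IsB (m + 1) (cs (m + 1)) := (ht _ _ (cs_cox (m + 1))).1
  have h0 : ∀ k : ℕ, ∑ i, Psi (m + 1) (cs (m + 1) ^ k) i * ρ i = 0 := by
    intro k
    have hBk := hB.pow k
    have hk := hc k
    refine Submodule.span_induction (p := fun v _ => ∑ i, Psi (m + 1) (cs (m + 1) ^ k) i * v i = 0)
      ?_ ?_ ?_ ?_ hk
    · rintro v ⟨t, hmem, rfl⟩
      unfold cj A1 at hmem
      rw [List.mem_map] at hmem
      obtain ⟨s, hs, rfl⟩ := hmem
      rw [List.mem_map] at hs
      obtain ⟨i, hi, rfl⟩ := hs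
      rw [List.mem_range] at hi
      rw [sg_succ, conj_nd _ hBk.1]
      set f := cs (m + 1) ^ k with hf
      have h1 : f ((i : ℤ) + 1) ≠ f ((i : ℤ) + 1 + 1) := fun h => by
        have := f.injective h; omega
      have h2 : f ((i : ℤ) + 1) ≠ -f ((i : ℤ) + 1 + 1) := fun h => by
        rw [← hBk.1] at h
        have := f.injective h; omega
      have e : (RB (m + 1)).α = al (m + 1) := rfl
      rw [e, al_nd _ (odd_ne_zero hBk.1 (by omega)) (odd_ne_zero hBk.1 (by omega)) h1 h2]
      have e1 := dot_Psi hBk ((i : ℤ) + 1) (by omega) (by push_cast; omega)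
      have e2 := dot_Psi hBk ((i : ℤ) + 1 + 1) (by omega) (by push_cast; omega)
      simp only [Pi.smul_apply, Pi.sub_apply, smul_eq_mul]
      have e3 : ∀ c : ℚ, ∑ x, Psi (m + 1) f x * (c * (ee (m + 1) (f ((i : ℤ) + 1)) x -
          ee (m + 1) (f ((i : ℤ) + 1 + 1)) x)) =
          c * (∑ x, Psi (m + 1) f x * ee (m + 1) (f ((i : ℤ) + 1)) x -
            ∑ x, Psi (m + 1) f x * ee (m + 1) (f ((i : ℤ) + 1 + 1)) x) := by
        intro c
        rw [← Finset.sum_sub_distrib, Finset.mul_sum]
        apply Finset.sum_congr rfl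
        intro x _
        ring
      rw [e3, e1, e2]
      ring
    · simp
    · intro x y _ _ hx hy
      simp only [Pi.add_apply, mul_add, Finset.sum_add_distrib]
      rw [hx, hy, add_zero]
    · intro c x _ hx
      simp only [Pi.smul_apply, smul_eq_mul]
      have : ∀ i, Psi (m + 1) (cs (m + 1) ^ k) i * (c * x i) =
          c * (Psi (m + 1) (cs (m + 1) ^ k) i * x i) := fun i => by ring
      simp only [this]
      rw [← Finset.mul_sum, hx, mul_zero]
  have h1 : ∀ k : ℕ, ∑ i, ee (m + 1) ((cs (m + 1) ^ k) 1) i * ρ i = 0 := by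
    intro k
    have e1 := h0 k
    have e2 := h0 (k + 1)
    rw [pow_succ, Psi_succ (hB.pow k)] at e2
    simp only [Pi.sub_apply, Pi.smul_apply, smul_eq_mul, sub_mul, Finset.sum_sub_distrib] at e2
    rw [e1] at e2
    have e3 : ∑ x, 2 * ee (m + 1) ((cs (m + 1) ^ k) 1) x * ρ x =
        2 * ∑ x, ee (m + 1) ((cs (m + 1) ^ k) 1) x * ρ x := by
      rw [Finset.mul_sum]
      apply Finset.sum_congr rfl
      intro x _
      ring
    rw [e3] at e2
    linarith
  apply hρ
  funext j
  have hj := j.isLt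
  have hab : |(j : ℤ) + 1| = (j : ℤ) + 1 := abs_of_nonneg (by omega)
  obtain ⟨k, hk⟩ := (ht _ _ (cs_cox (m + 1))).2 1 ((j : ℤ) + 1) (by simp) (by simp)
    (by rw [hab]; omega) (by rw [hab]; push_cast; omega)
  have h2 := h1 k
  rw [hk, Finset.sum_eq_single j] at h2
  · have e : ee (m + 1) ((j : ℤ) + 1) j = 1 := by
      simp only [ee]
      rw [if_pos True.intro, if_neg (by omega)]
      ring
    rw [e, one_mul] at h2
    exact h2
  · intro i _ hij
    have e : ee (m + 1) ((j : ℤ) + 1) i = 0 := by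
      simp only [ee]
      rw [if_neg, if_neg (by omega)]
      · ring
      · intro h
        apply hij
        apply Fin.ext
        omega
    rw [e, zero_mul]
  · intro h; exact absurd (Finset.mem_univ _) h

/-- the words that are used for the lower bound -/
theorem lb (hL : StmLead) (hO : StmOpp) (hP : StmPot) (hT : StmTrans) (h1 : StmOne) (m : ℕ)
    (hm : 1 ≤ m) (v : List (Perm ℤ)) (hv : IsWord (m + 1) (cs (m + 1)) v)
    (hvl : v.length = m + 1) :
    ∃ w, IsWord (m + 1) (cs (m + 1)) w ∧ w.length = m + 1 ∧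
      ∀ k, Reach k v w → (m + 1).choose 2 + 1 ≤ k := by
  set n := m + 1 with hn
  set R := RB n with hR
  have hRT : R.T = Rfl n := rfl
  have hcox := cs_cox n
  have hB : IsB n (cs n) := (hT _ _ hcox).1
  -- facts on words
  have hone : ∀ l : List (Perm ℤ), IsWord n (cs n) l → l.length = n →
      ∃ p, p < n ∧ ∀ i t, l[i]? = some t → (Df t ↔ i = p) := fun l hl hll =>
    (h1 n l (by omega) (fun t ht => Rfl.rf (hl.1 t ht)) hll hl.2).1
  have hfr : ∀ l : List (Perm ℤ), (∀ t ∈ l, t ∈ Rfl n) → l.prod = cs n →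
      Module.finrank ℚ (R.sp l) = n := fun l hl hlp =>
    sp_finrank hT n (cs n) hcox l (fun t ht => Rfl.rf (hl t ht)) hlp
  have htop : ∀ l : List (Perm ℤ), (∀ t ∈ l, t ∈ Rfl n) → l.prod = cs n →
      R.sp l = ⊤ := fun l hl hlp =>
    sp_top hT n (cs n) hcox l (fun t ht => Rfl.rf (hl t ht)) hlp
  obtain ⟨p, hp, hpv⟩ := hone v hv hvl
  -- the flag of `v`
  have hvf : Module.finrank ℚ (R.sp v) = v.length := by rw [hfr v hv.1 hv.2, hvl]
  have hF1 : ∀ j, j ≤ n → Module.finrank ℚ (R.sp (v.take j)) = j := fun j hj =>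
    finrank_take R v hvf j (by rw [hvl]; exact hj)
  have hF2 : ∀ i j, i ≤ j → j ≤ n → R.sp (v.take i) ≤ R.sp (v.take j) := by
    intro i j hij _
    apply sp_mono
    intro t ht
    exact (List.take_sublist_take_left hij).subset ht
  obtain ⟨s0, v', rfl⟩ : ∃ s0 v', v = s0 :: v' := by
    cases v with
    | nil => simp at hvl
    | cons a b => exact ⟨a, b, rfl⟩
  have hs0 : s0 ∈ Rfl n := hv.1 s0 (by simp)
  have htake1 : (s0 :: v').take 1 = [s0] := rfl
  set ρ := al n s0 with hρdef
  have hρsp : R.sp [s0] = Submodule.span ℚ {ρ} := by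
    rw [sp_cons, sp_nil]
    simp only [sup_bot_eq]
    rfl
  have hρ0 : ρ ≠ 0 := by
    intro h
    have h2 := hF1 1 (by omega)
    rw [htake1, hρsp, h, Submodule.span_zero_singleton, finrank_bot] at h2
    omega
  -- it is enough to find a good pair
  have key : ∀ (u : List (Perm ℤ)) (t : Perm ℤ), (∀ x ∈ u, x ∈ Rfl n) → t ∈ Rfl n →
      u.length + 1 = n → u.prod * t = cs n → ρ ∉ R.sp u → ((p = 0) ↔ ¬ Df t) →
      ∃ w, IsWord n (cs n) w ∧ w.length = n ∧ ∀ k, Reach k (s0 :: v') w → n.choose 2 + 1 ≤ k := by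
    intro u t hu ht hul hup hρu hpt
    have hut : ∀ x ∈ u ++ [t], x ∈ Rfl n := by
      intro x hx
      simp only [List.mem_append, List.mem_singleton] at hx
      rcases hx with hx | rfl
      · exact hu x hx
      · exact ht
    have hutp : (u ++ [t]).prod = cs n := by simpa using hup
    obtain ⟨u', hu', hul', hup', hopp⟩ := hO (Perm ℤ) (Fin n → ℚ) R n u t hul hu ht
      (hfr _ hut hutp) (fun j => R.sp ((s0 :: v').take j)) hF1 hF2
      (by rw [htop _ hut hutp]; exact le_top)
      (by
        intro hle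
        apply hρu
        apply hle
        simp only [htake1, hρsp]
        exact Submodule.mem_span_singleton_self ρ)
    have hw : IsWord n (cs n) (u' ++ [t]) := by
      refine ⟨?_, ?_⟩
      · intro x hx
        simp only [List.mem_append, List.mem_singleton] at hx
        rcases hx with hx | rfl
        · exact hu' x hx
        · exact ht
      · simp [hup', hup]
    have hwl : (u' ++ [t]).length = n := by simp [hul', hul]
    refine ⟨u' ++ [t], hw, hwl, ?_⟩
    obtain ⟨q, hq, hqw⟩ := hone _ hw hwl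
    intro k hk
    have hget : (u' ++ [t])[n - 1]? = some t := by
      have : n - 1 = u'.length := by omega
      rw [this]
      simp
    have hq2 := hqw (n - 1) t hget
    refine (hP (Perm ℤ) (Fin n → ℚ) R Df (fun s hs t ht => Df_conj_iff (Rfl.rf hs) (Rfl.rf ht)) n
      (s0 :: v') (u' ++ [t]) hvl hwl hv.1 (by rw [hvf, hvl]) hopp p q hp hq hpv hqw k hk).2 ?_
    by_cases hp0 : p = 0
    · have : ¬ (n - 1 = q) := fun h => (hpt.mp hp0) (hq2.mpr h)
      omega
    · have hD : Df t := by
        by_contra hD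
        exact hp0 (hpt.mpr hD)
      have := hq2.mp hD
      omega
  by_cases hp0 : p = 0
  · -- the first letter of `v` is a diameter
    have hD : Df s0 := (hpv 0 s0 (by simp)).mpr hp0.symm
    obtain ⟨a, ha0, rfl⟩ := hD
    obtain ⟨x, hx1, hx2, hxa, hxa'⟩ : ∃ x : ℤ, 1 ≤ x ∧ x ≤ n ∧ x ≠ a ∧ x ≠ -a := by
      by_cases h : (1 : ℤ) = a ∨ (1 : ℤ) = -a
      · exact ⟨2, by omega, by omega, by omega, by omega⟩
      · exact ⟨1, by omega, by omega, by omega, by omega⟩
    obtain ⟨k, hk⟩ := (hT _ _ hcox).2 1 x (by simp) (by simp [hn])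
      (by rw [abs_of_nonneg (by omega)]; exact hx1) (by rw [abs_of_nonneg (by omega)]; exact hx2)
    have hBk := hB.pow k
    set z := cj (cs n ^ k) (v0 n) with hz
    have hzl : z.length = n := by rw [hz, cj_length, v0_length]
    have hzR : ∀ t ∈ z, t ∈ Rfl n := cj_Rfl hBk (v0_word n).1
    have hzp : z.prod = cs n := by
      rw [hz, cj_prod, v0_prod, ← pow_succ, pow_succ', mul_assoc, mul_inv_cancel, mul_one]
    have hzhead : ∃ l1, z = df x :: l1 := by
      have : v0 n = sg 0 :: (List.range m).map (fun i => sg (i + 1)) := by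
        unfold v0
        rw [hn, List.range_succ_eq_map, List.map_cons, List.map_map]
        rfl
      rw [hz, this]
      unfold cj
      rw [List.map_cons, sg_zero, conj_df _ hBk.1, hk]
      exact ⟨_, rfl⟩
    obtain ⟨l1, hl1⟩ := hzhead
    have hρx : ρ ∉ R.sp [df x] := by
      intro h
      have e1 : R.sp [df x] = Submodule.span ℚ {al n (df x)} := by
        rw [sp_cons, sp_nil]
        simp only [sup_bot_eq]
        rfl
      rw [e1, Submodule.mem_span_singleton] at h
      obtain ⟨c, hc⟩ := h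
      rw [hρdef, al_df n ha0, al_df n (by omega)] at hc
      have hBa := Rfl.isB hs0
      have haN : |a| ≤ n := by
        by_contra hcon
        push Not at hcon
        have := hBa.2 a hcon
        rw [df_apply_self] at this
        omega
      have ha1 : 1 ≤ |a| := by
        have := abs_pos.mpr ha0
        omega
      have e2 := dot_ee n a x ha1 haN
      have e3 := dot_ee n a a ha1 haN
      rw [if_neg (fun h => hxa h.symm), if_neg (by omega)] at e2
      rw [if_pos rfl, if_neg (by omega)] at e3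
      have e4 : ∑ i : Fin n, ee n a i * (c • (-2 * (x : ℚ)) • ee n x) i =
          ∑ i : Fin n, ee n a i * ((-2 * (a : ℚ)) • ee n a) i := by rw [hc]
      simp only [Pi.smul_apply, smul_eq_mul] at e4
      have e5 : ∀ (d : ℚ) (y : ℤ), ∑ i : Fin n, ee n a i * (d * ee n y i) =
          d * ∑ i : Fin n, ee n a i * ee n y i := by
        intro d y
        rw [Finset.mul_sum]
        apply Finset.sum_congr rfl
        intro i _
        ring
      have e6 : ∑ i : Fin n, ee n a i * (c * (-2 * (x : ℚ) * ee n x i)) =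
          (c * (-2 * x)) * ∑ i : Fin n, ee n a i * ee n x i := by
        rw [← e5]
        apply Finset.sum_congr rfl
        intro i _
        ring
      rw [e6, e5, e2, e3] at e4
      have : (a : ℚ) = 0 := by linarith
      exact ha0 (by exact_mod_cast this)
    obtain ⟨u, t, hu, htz, hup, hul, hρu, -, hlast⟩ := hL (Perm ℤ) (Fin n → ℚ) R z hzR
      (by rw [hfr z hzR hzp, hzl]) ρ (by rw [htop z hzR hzp]; trivial) hρ0
    have htl1 := hlast _ _ hl1 hρx
    obtain ⟨p', hp', hpz⟩ := hone z ⟨hzR, hzp⟩ hzl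
    have hp'0 : 0 = p' := (hpz 0 (df x) (by rw [hl1]; rfl)).mp ⟨x, by omega, rfl⟩
    obtain ⟨i, hi⟩ := List.mem_iff_getElem?.mp htl1
    have hnt : ¬ Df t := by
      intro h
      have := (hpz (i + 1) t (by rw [hl1]; simpa using hi)).mp h
      omega
    exact key u t hu (hzR t htz) (by rw [hul, hzl]) (by rw [hup, hzp]) hρu
      ⟨fun _ => hnt, fun _ => hp0⟩
  · obtain ⟨k, hk⟩ := exists_diam hT m ρ hρ0
    have hBk := hB.pow k
    set f := cs n ^ k with hf
    have hA : ∀ t ∈ A1 m, t ∈ Rfl n := by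
      intro t ht
      unfold A1 at ht
      rw [List.mem_map] at ht
      obtain ⟨i, hi, rfl⟩ := ht
      rw [List.mem_range] at hi
      exact sg_Rfl (by omega)
    have hdf : df ((m : ℤ) + 1) ∈ Rfl n := by
      have e := A1_prod m
      obtain ⟨g, hg1, hg2⟩ : ∃ g, IsB n g ∧ g 1 = (m : ℤ) + 1 := by
        obtain ⟨j, hj⟩ := (hT _ _ hcox).2 1 ((m : ℤ) + 1) (by simp) (by simp [hn])
          (by rw [abs_of_nonneg (by omega)]; omega)
          (by rw [abs_of_nonneg (by omega), hn]; push_cast; omega)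
        exact ⟨_, hB.pow j, hj⟩
      refine ⟨g, hg1, 0, by omega, ?_⟩
      rw [sg_zero, conj_df g hg1.1, hg2]
    refine key (cj f (A1 m)) (f * df ((m : ℤ) + 1) * f⁻¹) (cj_Rfl hBk hA) (Rfl.conj hdf hBk) ?_ ?_
      hk ?_
    · rw [cj_length]; simp [A1, hn]
    · rw [cj_prod, show f * (A1 m).prod * f⁻¹ * (f * df ((m : ℤ) + 1) * f⁻¹) =
        f * ((A1 m).prod * df ((m : ℤ) + 1)) * f⁻¹ by group, A1_prod, hf, ← pow_succ, pow_succ',
        mul_assoc, mul_inv_cancel, mul_one]
    · have hD : Df (f * df ((m : ℤ) + 1) * f⁻¹) := by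
        rw [conj_df f hBk.1]
        exact ⟨_, odd_ne_zero hBk.1 (by omega), rfl⟩
      exact ⟨fun h => absurd h hp0, fun h => absurd hD h⟩

end Pool.Agent.K3h92.Hz
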