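import Pool.Agent.K3h92.Hz.UB

/-!
# Roots of the reflections of type B
-/

set_option autoImplicit false

namespace Pool.Agent.K3h92.Hz

open Equiv

lemma IsB.one (n : ℕ) : IsB n 1 := ⟨fun _ => rfl, fun _ _ => rfl⟩

lemma IsB.mul {n : ℕ} {f g : Perm ℤ} (hf : IsB n f) (hg : IsB n g) : IsB n (f * g) := by
  refine ⟨fun x => ?_, fun x hx => ?_⟩
  · rw [Perm.mul_apply, Perm.mul_apply, hg.1, hf.1]
  · rw [Perm.mul_apply, hg.2 x hx, hf.2 x hx]

lemma IsB.inv {n : ℕ} {f : Perm ℤ} (hf : IsB n f) : IsB n f⁻¹ := by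
  refine ⟨fun x => ?_, fun x hx => ?_⟩
  · rw [Perm.inv_eq_iff_eq, hf.1]
    rw [show f (f⁻¹ x) = x from f.apply_symm_apply x]
  · rw [Perm.inv_eq_iff_eq, hf.2 x hx]

lemma IsB.pow {n : ℕ} {f : Perm ℤ} (hf : IsB n f) (k : ℕ) : IsB n (f ^ k) := by
  induction k with
  | zero => rw [pow_zero]; exact IsB.one n
  | succ k ih => rw [pow_succ]; exact ih.mul hf

lemma sg_rf (i : ℕ) : Rf (sg i) := by
  cases i with
  | zero => rw [sg_zero]; exact Or.inl ⟨1, by norm_num, rfl⟩
  | succ i =>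
    rw [sg_succ]
    exact Or.inr ⟨_, _, by omega, by omega, by omega, by omega, rfl⟩

lemma sg_isB {n i : ℕ} (hi : i < n) : IsB n (sg i) := by
  refine ⟨(sg_rf i).odd, fun x hx => ?_⟩
  cases i with
  | zero =>
    rw [sg_zero]
    rw [lt_abs] at hx
    apply df_apply_of <;> omega
  | succ i =>
    rw [sg_succ]
    rw [lt_abs] at hx
    apply nd_of <;> omega

lemma Rfl.isB {n : ℕ} {t : Perm ℤ} (h : t ∈ Rfl n) : IsB n t := by
  obtain ⟨g, hg, i, hi, rfl⟩ := h
  exact (hg.mul (sg_isB hi)).mul hg.inv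

lemma Rfl.rf {n : ℕ} {t : Perm ℤ} (h : t ∈ Rfl n) : Rf t := by
  obtain ⟨g, hg, i, hi, rfl⟩ := h
  rcases sg_rf i with h | h
  · exact Or.inl (h.conj hg.1)
  · exact Or.inr (h.conj hg.1)

lemma Rfl.conj {n : ℕ} {t f : Perm ℤ} (h : t ∈ Rfl n) (hf : IsB n f) : f * t * f⁻¹ ∈ Rfl n := by
  obtain ⟨g, hg, i, hi, rfl⟩ := h
  exact ⟨f * g, hf.mul hg, i, hi, by group⟩

lemma Rfl.conj' {n : ℕ} {s t : Perm ℤ} (hs : s ∈ Rfl n) (ht : t ∈ Rfl n) : s * t * s ∈ Rfl n := by
  have := Rfl.conj ht (Rfl.isB hs)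
  rwa [(Rfl.rf hs).inv_eq] at this

lemma sg_Rfl {n i : ℕ} (hi : i < n) : sg i ∈ Rfl n := ⟨1, IsB.one n, i, hi, by group⟩

/-- the vector of a point -/
noncomputable def ee (n : ℕ) (p : ℤ) : Fin n → ℚ := fun i =>
  (if p = (i : ℤ) + 1 then 1 else 0) - (if p = -((i : ℤ) + 1) then 1 else 0)

/-- the root of a reflection -/
noncomputable def al (n : ℕ) (t : Perm ℤ) : Fin n → ℚ := fun i =>
  ((t ((i : ℤ) + 1) : ℤ) : ℚ) - ((i : ℤ) + 1 : ℤ)

lemma ee_neg (n : ℕ) (p : ℤ) : ee n (-p) = - ee n p := by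
  funext i
  simp only [ee, Pi.neg_apply]
  have h1 : (-p = (i : ℤ) + 1) ↔ (p = -((i : ℤ) + 1)) := by constructor <;> intro h <;> omega
  have h2 : (-p = -((i : ℤ) + 1)) ↔ (p = (i : ℤ) + 1) := by constructor <;> intro h <;> omega
  simp only [h1, h2]
  ring

lemma al_df (n : ℕ) {a : ℤ} (ha : a ≠ 0) : al n (df a) = (-2 * (a : ℚ)) • ee n a := by
  funext i
  simp only [al, ee, Pi.smul_apply, smul_eq_mul]
  by_cases h1 : (i : ℤ) + 1 = a
  · rw [h1, df_apply_self, if_pos rfl, if_neg (by omega)]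
    push_cast; ring
  · by_cases h2 : (i : ℤ) + 1 = -a
    · rw [h2, df_apply_neg, if_neg (by omega), if_pos (by omega)]
      push_cast; ring
    · rw [df_apply_of h1 h2, if_neg (fun h => h1 h.symm), if_neg (by omega)]
      ring

lemma al_nd (n : ℕ) {a b : ℤ} (ha : a ≠ 0) (hb : b ≠ 0) (hab : a ≠ b) (hab' : a ≠ -b) :
    al n (nd a b) = ((b : ℚ) - a) • (ee n a - ee n b) := by
  funext i
  simp only [al, ee, Pi.smul_apply, smul_eq_mul, Pi.sub_apply]
  by_cases h1 : (i : ℤ) + 1 = a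
  · rw [h1, nd_left ha hab', if_pos rfl, if_neg (by omega), if_neg (by omega), if_neg (by omega)]
    push_cast; ring
  by_cases h2 : (i : ℤ) + 1 = b
  · rw [h2, nd_right hb hab', if_neg (by omega), if_neg (by omega), if_pos rfl, if_neg (by omega)]
    push_cast; ring
  by_cases h3 : (i : ℤ) + 1 = -a
  · rw [h3, nd_neg_left hb hab', if_neg (by omega), if_pos (by omega), if_neg (by omega),
      if_neg (by omega)]
    push_cast; ring
  by_cases h4 : (i : ℤ) + 1 = -b
  · rw [h4, nd_neg_right ha hab', if_neg (by omega), if_neg (by omega), if_neg (by omega),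
      if_pos (by omega)]
    push_cast; ring
  rw [nd_of h1 h2 h3 h4, if_neg (by omega), if_neg (by omega), if_neg (by omega),
    if_neg (by omega)]
  ring

/-- a reflection moves a point vector by a multiple of the root -/
lemma ee_move (n : ℕ) {s : Perm ℤ} (hs : Rf s) (p : ℤ) : ∃ c : ℚ, ee n (s p) = ee n p + c • al n s := by
  rcases hs with ⟨a, ha, rfl⟩ | ⟨a, b, ha, hb, hab, hab', rfl⟩
  · have ha' : (a : ℚ) ≠ 0 := by exact_mod_cast ha
    rw [al_df n ha]
    by_cases h1 : p = a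
    · subst h1
      refine ⟨1 / p, ?_⟩
      rw [df_apply_self, ee_neg, smul_smul, show 1 / (p : ℚ) * (-2 * p) = -2 by field_simp]
      module
    · by_cases h2 : p = -a
      · subst h2
        refine ⟨-1 / a, ?_⟩
        rw [df_apply_neg, ee_neg, smul_smul, show -1 / (a : ℚ) * (-2 * a) = 2 by field_simp]
        module
      · exact ⟨0, by rw [df_apply_of h1 h2]; module⟩
  · have hba : (b : ℚ) - a ≠ 0 := by
      have : (b : ℚ) ≠ a := by exact_mod_cast hab.symm
      exact sub_ne_zero.mpr this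
    rw [al_nd n ha hb hab hab']
    by_cases h1 : p = a
    · subst h1
      refine ⟨-1 / (b - p), ?_⟩
      rw [nd_left ha hab', smul_smul, show -1 / ((b : ℚ) - p) * (b - p) = -1 by field_simp]
      module
    by_cases h2 : p = b
    · subst h2
      refine ⟨1 / (p - a), ?_⟩
      rw [nd_right hb hab', smul_smul, show 1 / ((p : ℚ) - a) * (p - a) = 1 by field_simp]
      module
    by_cases h3 : p = -a
    · subst h3
      refine ⟨1 / (b - a), ?_⟩
      rw [nd_neg_left hb hab', smul_smul, show 1 / ((b : ℚ) - a) * (b - a) = 1 by field_simp,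
        ee_neg, ee_neg]
      module
    by_cases h4 : p = -b
    · subst h4
      refine ⟨-1 / (b - a), ?_⟩
      rw [nd_neg_right ha hab', smul_smul, show -1 / ((b : ℚ) - a) * (b - a) = -1 by field_simp,
        ee_neg, ee_neg]
      module
    exact ⟨0, by rw [nd_of h1 h2 h3 h4]; module⟩

lemma al_root (n : ℕ) {s t : Perm ℤ} (hs : Rf s) (ht : Rf t) :
    ∃ k k' : ℚ, k ≠ 0 ∧ al n (s * t * s) = k • al n t + k' • al n s := by
  rcases ht with ⟨a, ha, rfl⟩ | ⟨a, b, ha, hb, hab, hab', rfl⟩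
  · obtain ⟨c, hc⟩ := ee_move n hs a
    have hsa : s a ≠ 0 := odd_ne_zero hs.odd ha
    have ha' : (a : ℚ) ≠ 0 := by exact_mod_cast ha
    have hsa' : ((s a : ℤ) : ℚ) ≠ 0 := by exact_mod_cast hsa
    refine ⟨(s a : ℚ) / a, -2 * (s a : ℚ) * c, by positivity, ?_⟩
    rw [conj_df' hs, al_df n hsa, al_df n ha, hc, smul_smul,
      show (s a : ℚ) / a * (-2 * a) = -2 * (s a : ℚ) by field_simp]
    module
  · obtain ⟨c, hc⟩ := ee_move n hs a
    obtain ⟨d, hd⟩ := ee_move n hs b
    have hsa : s a ≠ 0 := odd_ne_zero hs.odd ha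
    have hsb : s b ≠ 0 := odd_ne_zero hs.odd hb
    have h1 : s a ≠ s b := fun h => hab (s.injective h)
    have h2 : s a ≠ - s b := by
      intro h
      rw [← hs.odd] at h
      exact hab' (s.injective h)
    have hba : (b : ℚ) - a ≠ 0 := by
      have : (b : ℚ) ≠ a := by exact_mod_cast hab.symm
      exact sub_ne_zero.mpr this
    have hsba : ((s b : ℤ) : ℚ) - (s a : ℤ) ≠ 0 := by
      have : ((s b : ℤ) : ℚ) ≠ (s a : ℤ) := by exact_mod_cast h1.symm
      exact sub_ne_zero.mpr this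
    refine ⟨((s b : ℚ) - s a) / (b - a), ((s b : ℚ) - s a) * (c - d), div_ne_zero hsba hba, ?_⟩
    rw [conj_nd' hs, al_nd n hsa hsb h1 h2, al_nd n ha hb hab hab', hc, hd, smul_smul,
      show ((s b : ℚ) - s a) / (b - a) * (b - a) = (s b : ℚ) - s a by field_simp]
    module

/-- the root system of type B -/
noncomputable def RB (n : ℕ) : RS (Perm ℤ) (Fin n → ℚ) where
  T := Rfl n
  α := al n
  inv t ht := (Rfl.rf ht).inv
  conj s hs t ht := Rfl.conj' hs ht
  root s hs t ht := al_root n (Rfl.rf hs) (Rfl.rf ht)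

section

variable {G : Type} [Group G] {V : Type} [AddCommGroup V] [Module ℚ V] (R : RS G V)

lemma sp_nil : R.sp [] = ⊥ := by
  unfold RS.sp
  simp

lemma sp_cons (t : G) (l : List G) : R.sp (t :: l) = Submodule.span ℚ {R.α t} ⊔ R.sp l := by
  unfold RS.sp
  rw [← Submodule.span_union]
  congr 1
  ext v
  simp only [Set.mem_setOf_eq, List.mem_cons, Set.mem_union, Set.mem_singleton_iff]
  constructor
  · rintro ⟨x, rfl | hx, rfl⟩
    · left; rfl
    · right; exact ⟨x, hx, rfl⟩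
  · rintro (rfl | ⟨x, hx, rfl⟩)
    · exact ⟨t, Or.inl rfl, rfl⟩
    · exact ⟨x, Or.inr hx, rfl⟩

lemma mem_sp {t : G} {l : List G} (h : t ∈ l) : R.α t ∈ R.sp l :=
  Submodule.subset_span ⟨t, h, rfl⟩

lemma sp_mono {l l' : List G} (h : ∀ t ∈ l, t ∈ l') : R.sp l ≤ R.sp l' := by
  unfold RS.sp
  apply Submodule.span_mono
  rintro v ⟨t, ht, rfl⟩
  exact ⟨t, h t ht, rfl⟩

lemma finrank_sp_le [FiniteDimensional ℚ V] (l : List G) : Module.finrank ℚ (R.sp l) ≤ l.length := by
  induction l with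
  | nil => rw [sp_nil]; simp
  | cons t l ih =>
    rw [sp_cons]
    have h1 := Submodule.finrank_add_le_finrank_add_finrank (Submodule.span ℚ {R.α t}) (R.sp l)
    have h2 : Module.finrank ℚ (Submodule.span ℚ {R.α t}) ≤ 1 := by
      have := finrank_span_le_card (R := ℚ) ({R.α t} : Set V)
      simpa using this
    simp only [List.length_cons]
    omega

end

lemma ee_prod (n : ℕ) : ∀ (l : List (Perm ℤ)), (∀ t ∈ l, Rf t) → ∀ p : ℤ,
    ee n (l.prod p) - ee n p ∈ (RB n).sp l := by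
  intro l
  induction l with
  | nil => intro _ p; simp
  | cons t l ih =>
    intro h p
    rw [List.prod_cons, Perm.mul_apply]
    obtain ⟨c, hc⟩ := ee_move n (h t (by simp)) (l.prod p)
    rw [hc]
    have h1 := ih (fun x hx => h x (by simp [hx])) p
    have h2 : (RB n).sp l ≤ (RB n).sp (t :: l) := sp_mono _ (fun x hx => by simp [hx])
    have h3 : al n t ∈ (RB n).sp (t :: l) := mem_sp (RB n) (t := t) (by simp)
    have e : ee n (l.prod p) + c • al n t - ee n p = (ee n (l.prod p) - ee n p) + c • al n t := by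
      module
    rw [e]
    exact Submodule.add_mem _ (h2 h1) (Submodule.smul_mem _ _ h3)

lemma ee_pow (n : ℕ) (l : List (Perm ℤ)) (h : ∀ t ∈ l, Rf t) (k : ℕ) (p : ℤ) :
    ee n ((l.prod ^ k) p) - ee n p ∈ (RB n).sp l := by
  induction k with
  | zero => simp
  | succ k ih =>
    rw [pow_succ', Perm.mul_apply]
    have h1 := ee_prod n l h ((l.prod ^ k) p)
    have := Submodule.add_mem _ h1 ih
    simpa using this

/-- a word of a transitive element spans -/
lemma sp_top (ht : StmTrans) (n : ℕ) (c : Perm ℤ) (hc : IsCox n c) (l : List (Perm ℤ))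
    (h : ∀ t ∈ l, Rf t) (hl : l.prod = c) : (RB n).sp l = ⊤ := by
  rw [eq_top_iff]
  intro v _
  have key : ∀ i : Fin n, ee n ((i : ℤ) + 1) ∈ (RB n).sp l := by
    intro i
    have hi := i.isLt
    have hab : |(i : ℤ) + 1| = (i : ℤ) + 1 := abs_of_nonneg (by omega)
    obtain ⟨k, hk⟩ := (ht n c hc).2 ((i : ℤ) + 1) (-((i : ℤ) + 1)) (by rw [hab]; omega)
      (by rw [hab]; omega) (by rw [abs_neg, hab]; omega) (by rw [abs_neg, hab]; omega)
    have h1 := ee_pow n l h k ((i : ℤ) + 1)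
    rw [hl, hk, ee_neg] at h1
    have h2 := Submodule.smul_mem _ (-1 / 2 : ℚ) h1
    convert h2 using 1
    module
  have hv : v = ∑ i : Fin n, v i • ee n ((i : ℤ) + 1) := by
    funext j
    rw [Finset.sum_apply, Finset.sum_eq_single j]
    · simp only [Pi.smul_apply, ee, smul_eq_mul]
      rw [if_pos True.intro, if_neg (by omega)]
      ring
    · intro i _ hij
      simp only [Pi.smul_apply, ee, smul_eq_mul]
      rw [if_neg, if_neg (by omega)]
      · ring
      · intro h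
        apply hij
        apply Fin.ext
        omega
    · intro h; exact absurd (Finset.mem_univ j) h
  rw [hv]
  exact Submodule.sum_mem _ (fun i _ => Submodule.smul_mem _ _ (key i))

lemma sp_finrank (ht : StmTrans) (n : ℕ) (c : Perm ℤ) (hc : IsCox n c) (l : List (Perm ℤ))
    (h : ∀ t ∈ l, Rf t) (hl : l.prod = c) : Module.finrank ℚ ((RB n).sp l) = n := by
  rw [sp_top ht n c hc l h hl, finrank_top]
  simp

lemma length_ge (ht : StmTrans) (n : ℕ) (c : Perm ℤ) (hc : IsCox n c) (l : List (Perm ℤ))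
    (h : ∀ t ∈ l, Rf t) (hl : l.prod = c) : n ≤ l.length := by
  have h1 := sp_finrank ht n c hc l h hl
  have h2 := finrank_sp_le (RB n) l
  omega

lemma cs_cox (n : ℕ) : IsCox n (cs n) := ⟨List.range n, List.Perm.refl _, rfl⟩

lemma v0_word (n : ℕ) : IsWord n (cs n) (v0 n) := by
  refine ⟨?_, v0_prod n⟩
  intro t ht
  unfold v0 at ht
  rw [List.mem_map] at ht
  obtain ⟨i, hi, rfl⟩ := ht
  exact sg_Rfl (List.mem_range.mp hi)

lemma v0_length (n : ℕ) : (v0 n).length = n := by simp [v0]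

/-- the reduced words are the words of length `n` -/
lemma red_iff (ht : StmTrans) (n : ℕ) (c : Perm ℤ) (hc : IsCox n c) (l : List (Perm ℤ)) :
    IsRed n c l ↔ IsWord n c l ∧ l.length = n := by
  constructor
  · rintro ⟨hw, hmin⟩
    refine ⟨hw, le_antisymm ?_ (length_ge ht n c hc l (fun t h => Rfl.rf (hw.1 t h)) hw.2)⟩
    obtain ⟨m, hm, hcm⟩ := hc
    have := hmin (m.map sg) ⟨?_, hcm.symm⟩
    · simpa [hm.length_eq] using this
    · intro t ht'
      rw [List.mem_map] at ht'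
      obtain ⟨i, hi, rfl⟩ := ht'
      exact sg_Rfl (List.mem_range.mp (hm.mem_iff.mp hi))
  · rintro ⟨hw, hlen⟩
    refine ⟨hw, fun l' hl' => ?_⟩
    rw [hlen]
    exact length_ge ht n c hc l' (fun t h => Rfl.rf (hl'.1 t h)) hl'.2

end Pool.Agent.K3h92.Hz
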