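import Pool.Agent.K3h92.Hz.Base

/-!
# The upper bound
-/

set_option autoImplicit false

namespace Pool.Agent.K3h92.Hz

open Equiv

/-- properties of the set of words of the Coxeter element that are used -/
structure Gd (Q : List (Perm ℤ) → Prop) : Prop where
  rf : ∀ l, Q l → ∀ t ∈ l, Rf t
  step : ∀ l l', Q l → Step l l' → Q l'
  nobad1 : ∀ a b x y, x ≠ 0 → y ≠ 0 → x ≠ y → x ≠ -y → ¬ Q (a ++ nd x y :: nd x y :: b)
  nobad2 : ∀ a b x y, x ≠ 0 → y ≠ 0 → x ≠ y → x ≠ -y → ¬ Q (a ++ nd x y :: nd x (-y) :: b)
  one : ∀ a b c s t, Df s → Df t → ¬ Q (a ++ s :: (b ++ t :: c))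

lemma Gd.reach {Q : List (Perm ℤ) → Prop} (hQ : Gd Q) {k : ℕ} {l l' : List (Perm ℤ)}
    (h : Reach k l l') (hl : Q l) : Q l' := by
  induction h with
  | refl l => exact hl
  | step hs _ ih => exact ih (hQ.step _ _ hl hs)

lemma Gd.rch {Q : List (Perm ℤ) → Prop} (hQ : Gd Q) {k : ℕ} {l l' : List (Perm ℤ)}
    (h : Rch k l l') (hl : Q l) : Q l' := by
  obtain ⟨j, -, h⟩ := h; exact hQ.reach h hl

lemma Gd.ctx {Q : List (Perm ℤ) → Prop} (hQ : Gd Q) (p s : List (Perm ℤ)) :
    Gd (fun l => Q (p ++ l ++ s)) where
  rf l hl t ht := hQ.rf _ hl t (by simp [ht])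
  step l l' hl h := hQ.step _ _ hl (h.ctx p s)
  nobad1 a b x y h1 h2 h3 h4 h := by
    apply hQ.nobad1 (p ++ a) (b ++ s) x y h1 h2 h3 h4
    simpa using h
  nobad2 a b x y h1 h2 h3 h4 h := by
    apply hQ.nobad2 (p ++ a) (b ++ s) x y h1 h2 h3 h4
    simpa using h
  one a b c u v h1 h2 h := by
    apply hQ.one (p ++ a) b (c ++ s) u v h1 h2
    simpa using h

/-- push a letter that moves `m` and is not a diameter to the end -/
lemma push_nd (Q : List (Perm ℤ) → Prop) (hQ : Gd Q) (m : ℤ) : ∀ (b a : List (Perm ℤ))
    (t : Perm ℤ), Nd t → t m ≠ m → Q (a ++ t :: b) → (∀ x ∈ a, x m = m) →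
    ∃ u t', Rch b.length (a ++ t :: b) (u ++ [t']) ∧ (∀ x ∈ u, x m = m) ∧ Nd t' ∧ t' m ≠ m := by
  intro b
  induction b with
  | nil =>
    intro a t ht htm hq ha
    exact ⟨a, t, Rch.refl _ _, ha, ht, htm⟩
  | cons r b ih =>
    intro a t ht htm hq ha
    have hr : Rf r := hQ.rf _ hq r (by simp)
    by_cases hrm : r m = m
    · -- `r` fixes `m`
      have hst : Step (a ++ t :: r :: b) ((a ++ [r]) ++ (r * t * r) :: b) :=
        ⟨a, b, t, r, rfl, Or.inr (by simp)⟩
      have hm' : (r * t * r) m ≠ m := by
        intro h
        simp only [Perm.mul_apply, hrm] at h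
        apply htm
        have := congrArg r h
        rw [hr.app2, hrm] at this
        exact this
      obtain ⟨u, t', h1, h2, h3, h4⟩ := ih (a ++ [r]) (r * t * r) (ht.conj' hr) hm'
        (hQ.step _ _ hq hst) (by
          intro x hx
          simp only [List.mem_append, List.mem_singleton] at hx
          rcases hx with hx | rfl
          · exact ha x hx
          · exact hrm)
      refine ⟨u, t', ?_, h2, h3, h4⟩
      have := (Rch.one hst).trans h1
      rwa [Nat.add_comm] at this
    · obtain ⟨hm0, hq0, hmq, hmq', hteq⟩ := ht.eq_of_moves htm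
      set q := t m with hqdef
      by_cases hrq : r q = q
      · -- new letter `t r t` fixes `m`
        have hst : Step (a ++ t :: r :: b) ((a ++ [t * r * t]) ++ t :: b) :=
          ⟨a, b, t, r, rfl, Or.inl (by simp)⟩
        have hfix : (t * r * t) m = m := by
          simp only [Perm.mul_apply]
          rw [← hqdef, hrq, hqdef]
          exact Rf.app2 (Or.inr ht) m
        obtain ⟨u, t', h1, h2, h3, h4⟩ := ih (a ++ [t * r * t]) t ht htm
          (hQ.step _ _ hq hst) (by
            intro x hx
            simp only [List.mem_append, List.mem_singleton] at hx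
            rcases hx with hx | rfl
            · exact ha x hx
            · exact hfix)
        refine ⟨u, t', ?_, h2, h3, h4⟩
        have := (Rch.one hst).trans h1
        rwa [Nat.add_comm] at this
      · -- impossible
        exfalso
        rcases hr with hr | hr
        · have h1 := (hr.eq_of_moves hrm).2
          have h2 := (hr.eq_of_moves hrq).2
          rw [h1] at hrq
          apply hrq
          apply df_apply_of
          · exact fun h => hmq h.symm
          · intro h; apply hmq'; rw [h, neg_neg]
        · obtain ⟨-, hb0, hmb, hmb', hreq⟩ := hr.eq_of_moves hrm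
          set q' := r m with hq'def
          have hcase : q = q' ∨ q = -q' := by
            by_contra hc
            push Not at hc
            apply hrq
            rw [hreq]
            apply nd_of
            · exact fun h => hmq h.symm
            · exact hc.1
            · intro h; apply hmq'; rw [h, neg_neg]
            · exact hc.2
          rcases hcase with h | h
          · rw [hteq, hreq, ← h] at hq
            exact hQ.nobad1 a b m q hm0 hq0 hmq hmq' hq
          · have h' : q' = -q := by rw [h, neg_neg]
            rw [hteq, hreq, h'] at hq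
            exact hQ.nobad2 a b m q hm0 hq0 hmq hmq' hq

/-- push a diameter that moves `m` to the end -/
lemma push_df (Q : List (Perm ℤ) → Prop) (hQ : Gd Q) (m : ℤ) (hm0 : m ≠ 0) :
    ∀ (b a : List (Perm ℤ)), Q (a ++ df m :: b) → (∀ x ∈ a, x m = m) →
    ∃ u t', Rch (b.length + 1) (a ++ df m :: b) (u ++ [t']) ∧ (∀ x ∈ u, x m = m) ∧ Rf t' ∧
      t' m ≠ m := by
  intro b
  induction b with
  | nil =>
    intro a hq ha
    exact ⟨a, df m, Rch.refl _ _, ha, Or.inl ⟨m, hm0, rfl⟩, by rw [df_apply_self]; omega⟩
  | cons r b ih =>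
    intro a hq ha
    have hr : Rf r := hQ.rf _ hq r (by simp)
    by_cases hrm : r m = m
    · have hst : Step (a ++ df m :: r :: b) ((a ++ [r]) ++ df m :: b) :=
        ⟨a, b, df m, r, rfl, Or.inr (by rw [conj_df' hr, hrm]; simp)⟩
      obtain ⟨u, t', h1, h2, h3, h4⟩ := ih (a ++ [r]) (hQ.step _ _ hq hst) (by
          intro x hx
          simp only [List.mem_append, List.mem_singleton] at hx
          rcases hx with hx | rfl
          · exact ha x hx
          · exact hrm)
      refine ⟨u, t', ?_, h2, h3, h4⟩
      have := (Rch.one hst).trans h1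
      rwa [Nat.add_comm] at this
    · rcases hr with hr | hr
      · exfalso
        exact hQ.one a [] b (df m) r ⟨m, hm0, rfl⟩ hr (by simpa using hq)
      · obtain ⟨-, hq0, hmq, hmq', hreq⟩ := hr.eq_of_moves hrm
        set q := r m with hqdef
        have hRm : Rf (df m) := Or.inl ⟨m, hm0, rfl⟩
        have hN : Nd (nd (-m) q) := ⟨-m, q, by omega, hq0, by omega, by omega, rfl⟩
        have hst1 : Step (a ++ df m :: r :: b) (a ++ nd (-m) q :: df m :: b) := by
          refine ⟨a, b, df m, r, rfl, Or.inl ?_⟩
          rw [hreq, conj_nd' hRm, df_apply_self, df_apply_of (fun h => hmq h.symm) (by omega)]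
        have hst2 : Step (a ++ nd (-m) q :: df m :: b) ((a ++ [df (-q)]) ++ nd (-m) q :: b) := by
          refine ⟨a, b, nd (-m) q, df m, rfl, Or.inl ?_⟩
          rw [conj_df' (Or.inr hN)]
          have h1 : nd (-m) q m = -q := by
            have := nd_neg_left (a := -m) (b := q) hq0 (by omega)
            rwa [neg_neg] at this
          rw [h1]
          simp
        have hfix : df (-q) m = m := by
          apply df_apply_of <;> omega
        have hmove : nd (-m) q m ≠ m := by
          have := nd_neg_left (a := -m) (b := q) hq0 (by omega)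
          rw [neg_neg] at this
          rw [this]; omega
        obtain ⟨u, t', h1, h2, h3, h4⟩ := push_nd Q hQ m b (a ++ [df (-q)]) (nd (-m) q) hN hmove
          (hQ.step _ _ (hQ.step _ _ hq hst1) hst2) (by
            intro x hx
            simp only [List.mem_append, List.mem_singleton] at hx
            rcases hx with hx | rfl
            · exact ha x hx
            · exact hfix)
        refine ⟨u, t', ?_, h2, Or.inr h3, h4⟩
        have := ((Rch.one hst1).trans (Rch.one hst2)).trans h1
        exact this.mono (by simp only [List.length_cons]; omega)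

/-- the first letter that moves `m` -/
lemma split_first (m : ℤ) : ∀ l : List (Perm ℤ), (∃ t ∈ l, t m ≠ m) →
    ∃ a t b, l = a ++ t :: b ∧ (∀ x ∈ a, x m = m) ∧ t m ≠ m := by
  intro l
  induction l with
  | nil => rintro ⟨t, ht, -⟩; simp at ht
  | cons s l ih =>
    intro h
    by_cases hs : s m = m
    · obtain ⟨t, ht, htm⟩ := h
      rcases List.mem_cons.mp ht with rfl | ht
      · exact absurd hs htm
      · obtain ⟨a, t, b, rfl, h1, h2⟩ := ih ⟨t, ht, htm⟩
        refine ⟨s :: a, t, b, rfl, ?_, h2⟩
        intro x hx
        rcases List.mem_cons.mp hx with rfl | hx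
        · exact hs
        · exact h1 x hx
    · exact ⟨[], s, l, rfl, by simp, hs⟩

lemma prod_fix (m : ℤ) : ∀ l : List (Perm ℤ), (∀ x ∈ l, x m = m) → l.prod m = m := by
  intro l
  induction l with
  | nil => simp
  | cons s l ih =>
    intro h
    rw [List.prod_cons, Perm.mul_apply, ih (fun x hx => h x (by simp [hx])), h s (by simp)]

/-- the word of the path with the given points, in reversed order -/
def rp : List ℤ → List (Perm ℤ)
  | [] => []
  | [_] => []
  | z :: y :: p => rp (y :: p) ++ [nd y z]

/-- the points are nonzero and different up to the sign -/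
def Pts (p : List ℤ) : Prop := (∀ x ∈ p, x ≠ 0) ∧ p.Pairwise (fun x y => x ≠ y ∧ x ≠ -y)

lemma Pts.tail {z : ℤ} {p : List ℤ} (h : Pts (z :: p)) : Pts p :=
  ⟨fun x hx => h.1 x (by simp [hx]), (List.pairwise_cons.mp h.2).2⟩

lemma rp_fix (z : ℤ) : ∀ p : List ℤ, (∀ x ∈ p, z ≠ x ∧ z ≠ -x) → ∀ t ∈ rp p, t z = z := by
  intro p
  induction p with
  | nil => intro _ t ht; simp [rp] at ht
  | cons y p ih =>
    intro h t ht
    cases p with
    | nil => simp [rp] at ht
    | cons x p =>
      simp only [rp, List.mem_append, List.mem_singleton] at ht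
      rcases ht with ht | rfl
      · exact ih (fun w hw => h w (by simp only [List.mem_cons] at hw ⊢; tauto)) t ht
      · have h1 := h y (by simp)
        have h2 := h x (by simp)
        exact nd_of h2.1 h1.1 h2.2 h1.2

/-- words of a cycle of type `A` -/
lemma typeA : ∀ (p : List ℤ), Pts p → ∀ Q, Gd Q → ∀ l, Q l → (∀ t ∈ l, Nd t) →
    l.length + 1 = p.length → l.prod = (rp p).prod → Rch ((p.length - 1).choose 2) l (rp p) := by
  intro p
  induction p with
  | nil => intro _ _ _ l _ _ h; simp at h
  | cons z p ih =>
    intro hp Q hQ l hl hnd hlen hprod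
    cases p with
    | nil =>
      simp only [List.length_cons, List.length_nil] at hlen
      have : l = [] := List.length_eq_zero_iff.mp (by omega)
      subst this
      exact Rch.refl _ _
    | cons y p =>
      have hz : ∀ x ∈ y :: p, z ≠ x ∧ z ≠ -x := (List.pairwise_cons.mp hp.2).1
      have hy0 : y ≠ 0 := hp.1 y (by simp)
      have hz0 : z ≠ 0 := hp.1 z (by simp)
      have hzy := hz y (by simp)
      have hfix : (rp (y :: p)).prod z = z := prod_fix z _ (rp_fix z _ hz)
      have hprod' : l.prod = (rp (y :: p)).prod * nd y z := by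
        rw [hprod]; simp [rp]
      -- a letter moves `z`
      have hex : ∃ t ∈ l, t z ≠ z := by
        by_contra hc
        push Not at hc
        have h1 := prod_fix z l hc
        rw [hprod', Perm.mul_apply, nd_right hz0 (by omega)] at h1
        rw [← hfix] at h1
        have := (rp (y :: p)).prod.injective (h1.trans (by rw [hfix]))
        exact hzy.1 this.symm
      obtain ⟨a, t, b, rfl, ha, ht⟩ := split_first z l hex
      obtain ⟨u, t', h1, h2, h3, h4⟩ := push_nd Q hQ z b a t (hnd t (by simp)) ht hl ha
      have hrf : ∀ x ∈ a ++ t :: b, Rf x := fun x hx => Or.inr (hnd x hx)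
      have hpr : u.prod * t' = (rp (y :: p)).prod * nd y z := by
        have := h1.prod hrf
        rw [hprod'] at this
        simpa using this
      have hinv : t' * t' = 1 := Rf.inv (Or.inr h3)
      have hinv2 : nd y z * nd y z = 1 := nd_inv hy0 hz0 (by omega)
      have hu : u.prod z = z := prod_fix z u h2
      have ht'z : t' z = y := by
        have e1 : u.prod * t' * nd y z = (rp (y :: p)).prod := by
          rw [hpr, mul_assoc, hinv2, mul_one]
        -- (u.prod * t' * nd y z) z = z
        have e2 : u.prod (t' (nd y z z)) = z := by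
          have e4 := congrArg (fun f : Perm ℤ => f z) e1
          simp only [Perm.mul_apply] at e4
          rw [e4, hfix]
        rw [nd_right hz0 (by omega)] at e2
        have e3 : t' y = z := u.prod.injective (e2.trans hu.symm)
        rw [← e3]
        exact Rf.app2 (Or.inr h3) y
      have ht' : t' = nd y z := by
        have := (h3.eq_of_moves h4).2.2.2.2
        rw [this, ht'z]
        exact nd_comm hy0 hz0 (by omega)
      subst ht'
      have hup : u.prod = (rp (y :: p)).prod := by
        exact mul_right_cancel hpr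
      have hlen1 : (u ++ [nd y z]).length = (a ++ t :: b).length := h1.length
      have hq' : Q (u ++ [nd y z]) := hQ.rch h1 hl
      have hndu : ∀ x ∈ u ++ [nd y z], Nd x := h1.nd hnd
      have hIH := ih hp.tail (fun l => Q ([] ++ l ++ [nd y z])) (hQ.ctx [] [nd y z]) u
        (by simpa using hq') (fun x hx => hndu x (by simp [hx]))
        (by simp only [List.length_append, List.length_cons, List.length_nil] at hlen1 hlen ⊢; omega)
        hup
      have h5 := h1.trans (hIH.ctx [] [nd y z])
      have h6 : rp (z :: y :: p) = [] ++ rp (y :: p) ++ [nd y z] := by simp [rp]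
      rw [h6]
      refine Rch.mono (h5) ?_
      have hch : (p.length + 1).choose 2 = p.length + p.length.choose 2 := by
        rw [Nat.choose_succ_succ' p.length 1, Nat.choose_one_right]
      simp only [List.length_append, List.length_cons, Nat.add_sub_cancel] at hlen ⊢
      rw [hch]
      omega

/-- the word `s_0, s_1, ..., s_(n-1)` -/
def v0 (n : ℕ) : List (Perm ℤ) := (List.range n).map sg

lemma v0_succ (n : ℕ) : v0 (n + 1) = v0 n ++ [sg n] := by
  unfold v0
  rw [List.range_succ, List.map_append]
  rfl

lemma v0_prod (n : ℕ) : (v0 n).prod = cs n := rfl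

lemma cs_succ (n : ℕ) : cs (n + 1) = cs n * sg n := by
  rw [← v0_prod, v0_succ, List.prod_append, v0_prod]
  simp

lemma sg_zero : sg 0 = df 1 := by simp [sg]

lemma sg_succ (n : ℕ) : sg (n + 1) = nd ((n : ℤ) + 1) ((n : ℤ) + 1 + 1) := by
  unfold sg
  rw [if_neg (Nat.succ_ne_zero n)]
  push_cast
  rfl

/-- the letters of `v0 n` fix the larger numbers -/
lemma sg_fix (i : ℕ) (x : ℤ) (hx : (i : ℤ) + 1 < x) : sg i x = x := by
  cases i with
  | zero => rw [sg_zero]; apply df_apply_of <;> push_cast at hx <;> omega
  | succ i => rw [sg_succ]; push_cast at hx; apply nd_of <;> omega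

lemma cs_fix (n : ℕ) (x : ℤ) (hx : (n : ℤ) < x) : cs n x = x := by
  rw [← v0_prod]
  apply prod_fix
  intro t ht
  unfold v0 at ht
  rw [List.mem_map] at ht
  obtain ⟨i, hi, rfl⟩ := ht
  rw [List.mem_range] at hi
  apply sg_fix
  omega

/-- the points `-z, 1, 2, ..., k`, reversed -/
def pts (z : ℤ) : ℕ → List ℤ
  | 0 => [-z]
  | k + 1 => ((k : ℤ) + 1) :: pts z k

lemma pts_length (z : ℤ) (k : ℕ) : (pts z k).length = k + 1 := by
  induction k with
  | zero => rfl
  | succ k ih => simp [pts, ih]

lemma mem_pts {z : ℤ} {k : ℕ} {x : ℤ} (h : x ∈ pts z k) : x = -z ∨ (1 ≤ x ∧ x ≤ k) := by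
  induction k with
  | zero => left; simpa [pts] using h
  | succ k ih =>
    simp only [pts, List.mem_cons] at h
    rcases h with rfl | h
    · right; push_cast; omega
    · rcases ih h with h | h
      · left; exact h
      · right; push_cast; omega

lemma pts_Pts (z : ℤ) (k : ℕ) (hz : (k : ℤ) < z) : Pts (pts z k) := by
  induction k with
  | zero =>
    refine ⟨?_, by simp [pts]⟩
    intro x hx
    simp only [pts, List.mem_singleton] at hx
    push_cast at hz
    omega
  | succ k ih =>
    have ih' := ih (by push_cast at hz; omega)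
    push_cast at hz
    refine ⟨?_, ?_⟩
    · intro x hx
      rcases mem_pts hx with h | h <;> omega
    · rw [pts, List.pairwise_cons]
      refine ⟨?_, ih'.2⟩
      intro x hx
      rcases mem_pts hx with h | h <;> omega

/-- the last `k + 1` moves -/
lemma fin_moves (z : ℤ) : ∀ k : ℕ, ((k : ℤ) + 1 < z) →
    Rch (k + 2) (df z :: rp (pts z (k + 1))) (v0 (k + 1) ++ [nd ((k : ℤ) + 1) z]) := by
  intro k
  induction k with
  | zero =>
    intro hz
    push_cast at hz
    have hN : Nd (nd z 1) := ⟨z, 1, by omega, by omega, by omega, by omega, rfl⟩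
    have hD : Rf (df z) := Or.inl ⟨z, by omega, rfl⟩
    have e0 : df z :: rp (pts z 1) = [] ++ df z :: nd (-z) 1 :: [] := by
      simp [pts, rp]
    have e1 : v0 1 ++ [nd 1 z] = [] ++ df 1 :: nd z 1 :: [] := by
      rw [nd_comm (by omega) (by omega) (by omega)]
      simp [v0, sg_zero]
    have s1 : Step ([] ++ df z :: nd (-z) 1 :: []) ([] ++ nd z 1 :: df z :: []) := by
      refine ⟨[], [], df z, nd (-z) 1, rfl, Or.inl ?_⟩
      rw [conj_nd' hD, df_apply_neg, df_apply_of (by omega) (by omega)]
    have s2 : Step ([] ++ nd z 1 :: df z :: []) ([] ++ df 1 :: nd z 1 :: []) := by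
      refine ⟨[], [], nd z 1, df z, rfl, Or.inl ?_⟩
      rw [conj_df' (Or.inr hN), nd_left (by omega) (by omega)]
    have h := (Rch.one s1).trans (Rch.one s2)
    rw [← e0, ← e1] at h
    simpa using h
  | succ k ih =>
    intro hz
    push_cast at hz
    have h1 := (ih (by omega)).ctx [] [nd ((k : ℤ) + 1) ((k : ℤ) + 1 + 1)]
    have e0 : [] ++ (df z :: rp (pts z (k + 1))) ++ [nd ((k : ℤ) + 1) ((k : ℤ) + 1 + 1)] =
        df z :: rp (pts z (k + 1 + 1)) := by
      have : pts z (k + 1 + 1) = (((k + 1 : ℕ) : ℤ) + 1) :: ((k : ℤ) + 1) :: pts z k := rfl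
      rw [this, rp]
      have : ((k : ℤ) + 1) :: pts z k = pts z (k + 1) := rfl
      rw [this]
      push_cast
      simp
    rw [e0] at h1
    have hN : Nd (nd ((k : ℤ) + 1) ((k : ℤ) + 1 + 1)) :=
      ⟨_, _, by omega, by omega, by omega, by omega, rfl⟩
    have s1 : Step ([] ++ (v0 (k + 1) ++ [nd ((k : ℤ) + 1) z]) ++
        [nd ((k : ℤ) + 1) ((k : ℤ) + 1 + 1)])
        (v0 (k + 1 + 1) ++ [nd (((k + 1 : ℕ) : ℤ) + 1) z]) := by
      refine ⟨v0 (k + 1), [], nd ((k : ℤ) + 1) z, nd ((k : ℤ) + 1) ((k : ℤ) + 1 + 1), by simp,
        Or.inr ?_⟩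
      rw [conj_nd' (Or.inr hN), nd_left (by omega) (by omega),
        nd_of (by omega) (by omega) (by omega) (by omega), v0_succ (k + 1), sg_succ]
      push_cast
      simp
    exact h1.trans (Rch.one s1)

/-- the upper bound -/
theorem ub : ∀ n : ℕ, ∀ Q, Gd Q → ∀ l, Q l → l.length = n + 1 → l.prod = cs (n + 1) →
    Rch ((n + 1).choose 2 + 1) l (v0 (n + 1)) := by
  intro n
  induction n with
  | zero =>
    intro Q hQ l hl hlen hprod
    obtain ⟨t, rfl⟩ := List.length_eq_one_iff.mp hlen
    have : t = cs 1 := by simpa using hprod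
    have e : v0 1 = [t] := by
      rw [this]
      simp [v0, cs]
    rw [e]
    exact Rch.refl _ _
  | succ n ih =>
    intro Q hQ l hl hlen hprod
    have hrf := hQ.rf l hl
    set z : ℤ := (n : ℤ) + 1 + 1 with hz
    have hz0 : z ≠ 0 := by omega
    have hcs : cs (n + 1 + 1) = cs (n + 1) * nd ((n : ℤ) + 1) z := by
      rw [cs_succ, sg_succ]
    have hch : (n + 1 + 1).choose 2 = (n + 1) + (n + 1).choose 2 := by
      rw [Nat.choose_succ_succ' (n + 1) 1, Nat.choose_one_right]
    by_cases hhead : ∃ u, l = df z :: u
    · obtain ⟨u, rfl⟩ := hhead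
      have hfin := fin_moves z n (by omega)
      have hN1 : nd ((n : ℤ) + 1) z = sg (n + 1) := by rw [sg_succ]
      rw [hN1, ← v0_succ] at hfin
      have hpts := pts_Pts z (n + 1) (by push_cast; omega)
      have hrp : ∀ p, Pts p → ∀ t ∈ rp p, Nd t := by
        intro p
        induction p with
        | nil => intro _ t ht; simp [rp] at ht
        | cons x p ihp =>
          intro hp t ht
          cases p with
          | nil => simp [rp] at ht
          | cons y p =>
            simp only [rp, List.mem_append, List.mem_singleton] at ht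
            rcases ht with ht | rfl
            · exact ihp hp.tail t ht
            · have h1 := (List.pairwise_cons.mp hp.2).1 y (by simp)
              exact ⟨y, x, hp.1 y (by simp), hp.1 x (by simp), by omega, by omega, rfl⟩
      have hD : Df (df z) := ⟨z, hz0, rfl⟩
      have hrf2 : ∀ t ∈ df z :: rp (pts z (n + 1)), Rf t := by
        intro t ht
        rcases List.mem_cons.mp ht with rfl | ht
        · exact Or.inl hD
        · exact Or.inr (hrp _ hpts t ht)
      have hprod2 := hfin.prod hrf2
      rw [v0_prod, List.prod_cons] at hprod2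
      rw [List.prod_cons, hprod2] at hprod
      have hup : u.prod = (rp (pts z (n + 1))).prod := mul_left_cancel hprod
      have hund : ∀ t ∈ u, Nd t := by
        intro t ht
        rcases hrf t (by simp [ht]) with h | h
        · exfalso
          obtain ⟨b, c, rfl⟩ := List.append_of_mem ht
          exact hQ.one [] b c (df z) t hD h (by simpa using hl)
        · exact h
      have hA := typeA (pts z (n + 1)) hpts (fun l => Q ([df z] ++ l ++ [])) (hQ.ctx _ _) u
        (by simpa using hl) hund (by rw [pts_length]; simpa using hlen) hup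
      rw [pts_length] at hA
      have h1 := hA.ctx [df z] []
      have e1 : [df z] ++ u ++ [] = df z :: u := by simp
      have e2 : [df z] ++ rp (pts z (n + 1)) ++ [] = df z :: rp (pts z (n + 1)) := by simp
      rw [e1, e2] at h1
      refine (h1.trans hfin).mono ?_
      rw [hch]
      simp only [Nat.add_sub_cancel]
      omega
    · -- a letter moves `z`
      have hcsz : cs (n + 1) z = z := cs_fix _ _ (by push_cast; omega)
      have hex : ∃ t ∈ l, t z ≠ z := by
        by_contra hc
        push Not at hc
        have h1 := prod_fix z l hc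
        rw [hprod, hcs, Perm.mul_apply, nd_right hz0 (by omega)] at h1
        have := (cs (n + 1)).injective (h1.trans hcsz.symm)
        omega
      obtain ⟨a, t, b, rfl, ha, ht⟩ := split_first z l hex
      have hpush : ∃ u t', Rch (n + 1) (a ++ t :: b) (u ++ [t']) ∧ (∀ x ∈ u, x z = z) ∧ Rf t' ∧
          t' z ≠ z := by
        simp only [List.length_append, List.length_cons] at hlen
        rcases hrf t (by simp) with hD | hN
        · have ht' := (hD.eq_of_moves ht).2
          subst ht'
          have hane : a ≠ [] := by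
            rintro rfl
            exact hhead ⟨b, rfl⟩
          have hapos : 0 < a.length := List.length_pos_iff.mpr hane
          obtain ⟨u, t', h1, h2, h3, h4⟩ := push_df Q hQ z hz0 b a hl ha
          exact ⟨u, t', h1.mono (by omega), h2, h3, h4⟩
        · obtain ⟨u, t', h1, h2, h3, h4⟩ := push_nd Q hQ z b a t hN ht hl ha
          exact ⟨u, t', h1.mono (by omega), h2, Or.inr h3, h4⟩
      obtain ⟨u, t', h1, h2, h3, h4⟩ := hpush
      have hpr : u.prod * t' = cs (n + 1) * nd ((n : ℤ) + 1) z := by
        have := h1.prod hrf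
        rw [hprod, hcs] at this
        simpa using this
      have hinv2 : nd ((n : ℤ) + 1) z * nd ((n : ℤ) + 1) z = 1 :=
        nd_inv (by omega) hz0 (by omega)
      have hu : u.prod z = z := prod_fix z u h2
      have ht'z : t' z = (n : ℤ) + 1 := by
        have e1 : u.prod * t' * nd ((n : ℤ) + 1) z = cs (n + 1) := by
          rw [hpr, mul_assoc, hinv2, mul_one]
        have e2 : u.prod (t' (nd ((n : ℤ) + 1) z z)) = z := by
          have e4 := congrArg (fun f : Perm ℤ => f z) e1
          simp only [Perm.mul_apply] at e4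
          rw [e4, hcsz]
        rw [nd_right hz0 (by omega)] at e2
        have e3 : t' ((n : ℤ) + 1) = z := u.prod.injective (e2.trans hu.symm)
        rw [← e3]
        exact Rf.app2 h3 _
      have ht' : t' = nd ((n : ℤ) + 1) z := by
        rcases h3 with hD | hN
        · exfalso
          have := (hD.eq_of_moves h4).2
          rw [this, df_apply_self] at ht'z
          omega
        · have := (hN.eq_of_moves h4).2.2.2.2
          rw [this, ht'z]
          exact nd_comm (by omega) hz0 (by omega)
      subst ht'
      have hup : u.prod = cs (n + 1) := mul_right_cancel hpr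
      have hlen1 := h1.length
      have hq' : Q (u ++ [nd ((n : ℤ) + 1) z]) := hQ.rch h1 hl
      have hIH := ih (fun l => Q ([] ++ l ++ [nd ((n : ℤ) + 1) z])) (hQ.ctx [] _) u
        (by simpa using hq')
        (by simp only [List.length_append, List.length_cons, List.length_nil] at hlen1 hlen ⊢; omega)
        hup
      have h5 := hIH.ctx [] [nd ((n : ℤ) + 1) z]
      have e1 : [] ++ u ++ [nd ((n : ℤ) + 1) z] = u ++ [nd ((n : ℤ) + 1) z] := by simp
      have e2 : [] ++ v0 (n + 1) ++ [nd ((n : ℤ) + 1) z] = v0 (n + 1 + 1) := by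
        rw [v0_succ (n + 1), sg_succ]; simp [hz]
      rw [e1, e2] at h5
      refine (h1.trans h5).mono ?_
      rw [hch]
      omega

end Pool.Agent.K3h92.Hz
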